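import Mathlib
import Pool.Agent.R639.CT.Free

/-!
First letters of reduced words: the direction from the vertex `v` to the vertex `u` of the Cayley
tree of a free group is the first letter of `v⁻¹ u`.
-/

set_option autoImplicit false

namespace Pool.Agent.K1H77.NC

open FreeGroup Pool.Agent.R639.CT

variable {α : Type*} [DecidableEq α]

/-- inverse letter -/
def inv' (a : α × Bool) : α × Bool := (a.1, !a.2)

/-- the group element of a letter -/
def lt (a : α × Bool) : FreeGroup α := FreeGroup.mk [a]

omit [DecidableEq α] in
@[simp] lemma inv'_inv' (a : α × Bool) : inv' (inv' a) = a := by simp [inv']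

omit [DecidableEq α] in
lemma inv'_ne (a : α × Bool) : inv' a ≠ a := by
  obtain ⟨i, s⟩ := a
  cases s <;> simp [inv']

omit [DecidableEq α] in
lemma lt_inv' (a : α × Bool) : lt (inv' a) = (lt a)⁻¹ := by
  simp [lt, inv', FreeGroup.inv_mk, FreeGroup.invRev]

omit [DecidableEq α] in
lemma red_iff {a b : α × Bool} : (a.1 = b.1 → a.2 = b.2) ↔ b ≠ inv' a := by
  obtain ⟨i, s⟩ := a
  obtain ⟨j, t⟩ := b
  simp only [inv', ne_eq, Prod.mk.injEq, not_and]
  cases s <;> cases t <;> simp <;> constructor <;> intro h h' <;> exact h h'.symm

lemma reduce_cons (a : α × Bool) (L : List (α × Bool)) :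
    reduce (a :: L) = if (reduce L).head? = some (inv' a) then (reduce L).tail
      else a :: reduce L := by
  rw [FreeGroup.reduce.cons]
  cases h : reduce L with
  | nil => simp
  | cons b M =>
    simp only [List.head?_cons, Option.some.injEq, List.tail_cons]
    obtain ⟨i, s⟩ := a
    obtain ⟨j, t⟩ := b
    simp only [inv', Prod.mk.injEq]
    by_cases h1 : i = j
    · subst h1
      cases s <;> cases t <;> simp
    · rw [if_neg (by simp [h1]), if_neg (by simp [Ne.symm h1])]

lemma toWord_lt_mul (a : α × Bool) (g : FreeGroup α) :
    (lt a * g).toWord = if g.toWord.head? = some (inv' a) then g.toWord.tail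
      else a :: g.toWord := by
  rw [lt, toWord_mul, toWord_mk]
  have h1 : reduce (reduce [a] ++ g.toWord) = reduce (a :: g.toWord) := by
    simp
  rw [h1, reduce_cons, isReduced_toWord.reduce_eq]

/-- first letter -/
def hd (g : FreeGroup α) : Option (α × Bool) := g.toWord.head?

lemma hd_eq_none {g : FreeGroup α} : hd g = none ↔ g = 1 := by
  unfold hd
  rw [List.head?_eq_none_iff, toWord_eq_nil_iff]

lemma hd_lt_mul_iff (a : α × Bool) (g : FreeGroup α) :
    hd (lt (inv' a) * g) = some (inv' a) ↔ hd g ≠ some a := by
  unfold hd
  rw [toWord_lt_mul, inv'_inv']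
  split_ifs with h
  · constructor
    · intro h3 _
      obtain ⟨t, ht⟩ := List.head?_eq_some_iff.1 h
      have hr := isReduced_toWord (x := g)
      rw [ht] at h3 hr
      rw [List.tail_cons] at h3
      obtain ⟨t', ht'⟩ := List.head?_eq_some_iff.1 h3
      rw [ht'] at hr
      have := hr
      unfold FreeGroup.IsReduced at this
      rw [List.isChain_cons_cons] at this
      exact red_iff.1 this.1 rfl
    · intro h3
      exact absurd h h3
  · simp [h]

/-- the direction from `v` to `u` -/
def dir (v u : FreeGroup α) : Option (α × Bool) := hd (v⁻¹ * u)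

lemma dir_mul_left (g v u : FreeGroup α) : dir v (g * u) = dir (g⁻¹ * v) u := by
  unfold dir
  congr 1
  group

lemma dir_translate (g v u : FreeGroup α) : dir (g * v) (g * u) = dir v u := by
  unfold dir
  congr 1
  group

/-- prefix lemma on lists -/
lemma reduce_append_prefix (L : List (α × Bool)) (u x : List (α × Bool))
    (hu : IsReduced (u ++ x)) (hlen : L.length < u.length) :
    reduce (L ++ (u ++ x)) = reduce (L ++ u) ++ x ∧
      u.length ≤ (reduce (L ++ u)).length + L.length := by
  induction L with
  | nil =>
    have hu' : IsReduced u := by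
      unfold FreeGroup.IsReduced at hu ⊢
      exact (List.isChain_append.mp hu).1
    simp only [List.nil_append, List.length_nil, add_zero]
    rw [hu.reduce_eq, hu'.reduce_eq]
    exact ⟨rfl, le_rfl⟩
  | cons a L ih =>
    simp only [List.length_cons] at hlen ⊢
    obtain ⟨h1, h2⟩ := ih (by omega)
    rw [List.cons_append, List.cons_append, reduce_cons, reduce_cons, h1]
    cases h : reduce (L ++ u) with
    | nil =>
      rw [h] at h2
      simp only [List.length_nil] at h2
      omega
    | cons b M =>
      rw [h] at h2
      simp only [List.length_cons] at h2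
      by_cases hb : b = inv' a
      · simp only [List.cons_append, List.head?_cons, List.tail_cons, hb, if_true]
        exact ⟨trivial, by omega⟩
      · simp only [List.cons_append, List.head?_cons, Option.some.injEq, hb, if_false,
          List.length_cons]
        exact ⟨trivial, by omega⟩

/-- If `u` is an initial segment of `x` which is longer than `g` then `g x` begins like `g u`. -/
lemma hd_mul_of_prefix (g u x : FreeGroup α) (t : List (α × Bool))
    (hx : x.toWord = u.toWord ++ t) (hlen : g.norm < u.norm) :
    hd (g * x) = hd (g * u) ∧ hd (g * u) ≠ none := by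
  unfold hd
  have hr : IsReduced (u.toWord ++ t) := by rw [← hx]; exact isReduced_toWord
  obtain ⟨h1, h2⟩ := reduce_append_prefix g.toWord u.toWord t hr hlen
  have h3 : reduce (g.toWord ++ u.toWord) ≠ [] := by
    intro h
    rw [h] at h2
    simp only [List.length_nil] at h2
    unfold FreeGroup.norm at hlen
    omega
  rw [toWord_mul, toWord_mul, hx, h1]
  obtain ⟨a, l, hal⟩ := List.exists_cons_of_ne_nil h3
  rw [hal]
  simp

/-- The first letter of `g h` is that of `g` if `h` is shorter. -/
lemma hd_mul_of_norm_lt (g h : FreeGroup α) (hlen : h.norm < g.norm) : hd (g * h) = hd g := by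
  -- `(g h)⁻¹ = h⁻¹ g⁻¹`: apply the previous computation
  have key : ∀ (L2 L1 : List (α × Bool)), IsReduced L1 → IsReduced L2 →
      L2.length < L1.length → (reduce (L1 ++ L2)).head? = L1.head? := by
    intro L2
    induction L2 with
    | nil => intro L1 h1 _ _; rw [List.append_nil, h1.reduce_eq]
    | cons b L2 ih =>
      intro L1 h1 h2 hlen
      rcases List.eq_nil_or_concat L1 with h | ⟨L, c, h⟩
      · rw [h] at hlen
        simp at hlen
      · rw [List.concat_eq_append] at h
        subst h
        by_cases hc : b = inv' c
        · have e : reduce (L ++ [c] ++ b :: L2) = reduce (L ++ L2) := by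
            rw [← FreeGroup.toWord_mk, ← FreeGroup.toWord_mk]
            congr 1
            have e1 : (FreeGroup.mk (L ++ [c] ++ b :: L2) : FreeGroup α) =
                FreeGroup.mk L * lt c * (lt b * FreeGroup.mk L2) := by
              rw [lt, lt, FreeGroup.mul_mk, FreeGroup.mul_mk, FreeGroup.mul_mk]
              rfl
            rw [e1, hc, lt_inv', ← FreeGroup.mul_mk]
            group
          rw [e]
          have hL : IsReduced L := by
            unfold FreeGroup.IsReduced at h1 ⊢
            exact (List.isChain_append.mp h1).1
          have hL2 : IsReduced L2 := by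
            unfold FreeGroup.IsReduced at h2 ⊢
            exact h2.tail
          have hlen' : L2.length < L.length := by
            simp only [List.length_cons, List.length_append, List.length_nil] at hlen
            omega
          rw [ih L hL hL2 hlen']
          match L, hlen' with
          | x :: L, _ => rfl
        · have hr : IsReduced (L ++ [c] ++ b :: L2) := by
            unfold FreeGroup.IsReduced at h1 h2 ⊢
            rw [List.isChain_append]
            refine ⟨h1, h2, ?_⟩
            intro x hx y hy
            simp only [List.getLast?_append, List.getLast?_singleton, Option.some_or,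
              Option.mem_def, Option.some.injEq, List.head?_cons] at hx hy
            subst hx
            subst hy
            exact red_iff.mpr hc
          rw [hr.reduce_eq]
          match L with
          | [] => rfl
          | x :: L => rfl
  unfold hd
  rw [toWord_mul]
  exact key _ _ isReduced_toWord isReduced_toWord hlen

/-- If `x` and `y` have a common initial segment which is longer than `v` then they lie in the same
direction from `v`. -/
lemma dir_eq_of_lcp (v x y : FreeGroup α) (h : v.norm < lcp x.toWord y.toWord) :
    dir v x = dir v y ∧ dir v x ≠ none := by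
  have hlcp : ∀ l m : List (α × Bool), ∃ p s t, l = p ++ s ∧ m = p ++ t ∧ p.length = lcp l m := by
    intro l
    induction l with
    | nil => intro m; exact ⟨[], [], m, by simp [lcp_nil_left]⟩
    | cons a l ih =>
      intro m
      cases m with
      | nil => exact ⟨[], a :: l, [], by simp [lcp_nil_right]⟩
      | cons b m =>
        rw [lcp_cons_cons]
        by_cases hab : a = b
        · subst hab
          obtain ⟨p, s, t, h1, h2, h3⟩ := ih m
          exact ⟨a :: p, s, t, by simp [h1], by simp [h2], by simp [h3]⟩
        · exact ⟨[], a :: l, b :: m, by simp [hab]⟩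
  obtain ⟨p, s, t, h1, h2, h3⟩ := hlcp x.toWord y.toWord
  have hp : IsReduced p := by
    have := isReduced_toWord (x := x)
    rw [h1] at this
    unfold FreeGroup.IsReduced at this ⊢
    exact (List.isChain_append.mp this).1
  have hp' : (FreeGroup.mk p).toWord = p := by rw [toWord_mk, hp.reduce_eq]
  have hlen : (v⁻¹).norm < (FreeGroup.mk p : FreeGroup α).norm := by
    rw [FreeGroup.norm_inv_eq]
    unfold FreeGroup.norm at h ⊢
    rw [hp', h3]
    exact h
  have e1 := hd_mul_of_prefix v⁻¹ (FreeGroup.mk p) x s (by rw [hp', h1]) hlen
  have e2 := hd_mul_of_prefix v⁻¹ (FreeGroup.mk p) y t (by rw [hp', h2]) hlen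
  unfold dir
  rw [e1.1, e2.1]
  exact ⟨rfl, e1.2⟩

end Pool.Agent.K1H77.NC
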