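import Mathlib
import Pool.Agent.K1H77.NC.Word
import Pool.Agent.H322R3.HypDefs

/-!
The space of ends of the Cayley tree of a free group: topology, action, convergence property.
(The encoding of the ends is the one of `Pool.Agent.H67R3.FSR.Boundary`.)
-/

set_option autoImplicit false

namespace Pool.Agent.K1H77.NC

open FreeGroup Filter Topology Pool.Agent.R639.CT Pool.Agent.H322R3.Hyp

/-- `γ k` converges to the constant map `a` uniformly on compact subsets of the complement of
`b`. -/
def Converges {Γ X : Type*} [Group Γ] [TopologicalSpace X] [MulAction Γ X] (γ : ℕ → Γ) (a b : X) :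
    Prop :=
  ∀ K : Set X, IsCompact K → b ∉ K → ∀ U ∈ 𝓝 a, ∀ᶠ k in atTop, ∀ x ∈ K, γ k • x ∈ U

/-- The limit set of a convergence action. -/
def limitSet (Γ X : Type*) [Group Γ] [TopologicalSpace X] [MulAction Γ X] : Set X :=
  {c | ∃ (γ : ℕ → Γ) (b : X), Function.Injective γ ∧ Converges γ c b}

/-- Conical points of an action. -/
def IsConicalPt (Γ : Type*) {X : Type*} [Group Γ] [TopologicalSpace X] [MulAction Γ X] (z : X) :
    Prop :=
  ∃ (γ : ℕ → Γ) (b c : X), b ≠ c ∧ Tendsto (fun n => γ n • z) atTop (𝓝 b) ∧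
    ∀ y, y ≠ z → Tendsto (fun n => γ n • y) atTop (𝓝 c)

section push

variable {Γ X Z : Type*} [Group Γ] [TopologicalSpace X] [MulAction Γ X] [TopologicalSpace Z]
  [MulAction Γ Z]

lemma Converges.comp {γ : ℕ → Γ} {a b : X} (h : Converges γ a b) {φ : ℕ → ℕ}
    (hφ : StrictMono φ) : Converges (fun n => γ (φ n)) a b := fun K hK hb U hU =>
  hφ.tendsto_atTop.eventually (h K hK hb U hU)

lemma Converges.push [CompactSpace X] [T2Space Z] {γ : ℕ → Γ} {a b : X}
    (h : Converges γ a b) (f : X → Z) (hf : Continuous f) (hs : Function.Surjective f)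
    (he : ∀ (g : Γ) (x : X), f (g • x) = g • f x) : Converges γ (f a) (f b) := by
  intro K hK hb U hU
  have h1 := h (f ⁻¹' K) (hK.isClosed.preimage hf).isCompact hb (f ⁻¹' U) (hf.continuousAt hU)
  filter_upwards [h1] with k hk z hz
  obtain ⟨x, rfl⟩ := hs z
  rw [← he]
  exact hk x hz

lemma Converges.tendsto [T1Space X] {γ : ℕ → Γ} {a b : X} (h : Converges γ a b) {x : X}
    (hx : x ≠ b) : Tendsto (fun n => γ n • x) atTop (𝓝 a) := by
  intro U hU
  have h1 : ∀ᶠ k in atTop, γ k • x ∈ U := by
    filter_upwards [h {x} isCompact_singleton (fun hb => hx hb.symm) U hU] with k hk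
    exact hk x rfl
  exact h1

/-- A point with two preimages is not conical. -/
lemma not_conical_of_two [CompactSpace X] [T2Space X] [T2Space Z] (f : X → Z)
    (hf : Continuous f) (hs : Function.Surjective f) (he : ∀ (g : Γ) (x : X), f (g • x) = g • f x)
    (hconv : ∀ γ : ℕ → Γ, Function.Injective γ → ∃ φ : ℕ → ℕ, StrictMono φ ∧ ∃ a b : X,
      Converges (fun n => γ (φ n)) a b)
    {z : Z} {x x' : X} (hx : f x = z) (hx' : f x' = z) (hne : x ≠ x')
    {y y' : Z} (hy : y ≠ z) (hy' : y' ≠ z) (hyy : y ≠ y') : ¬ IsConicalPt Γ z := by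
  rintro ⟨γ, b, c, hbc, h1, h2⟩
  -- the sequence takes infinitely many values
  have hinf : (Set.range γ).Infinite := by
    intro hfin
    obtain ⟨g, hg⟩ : ∃ g, ∃ᶠ n in atTop, γ n = g := by
      by_contra hcon
      push Not at hcon
      have h3 : ∀ᶠ n in atTop, ∀ g ∈ Set.range γ, γ n ≠ g := by
        rw [hfin.eventually_all]
        intro g _
        exact hcon g
      obtain ⟨n, hn⟩ := h3.exists
      exact hn (γ n) ⟨n, rfl⟩ rfl
    have h3 : ∀ (w : Z) (d : Z), Tendsto (fun n => γ n • w) atTop (𝓝 d) → g • w = d := by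
      intro w d hw
      by_contra hne'
      obtain ⟨U, V, hU, hV, hUV⟩ := t2_separation_nhds hne'
      have h4 := hw hV
      obtain ⟨n, hn1, hn2⟩ := (hg.and_eventually h4).exists
      have h5 : γ n • w ∈ V := hn2
      rw [hn1] at h5
      exact Set.disjoint_left.1 hUV (mem_of_mem_nhds hU) h5
    have h4 := h3 y c (h2 y hy)
    have h5 := h3 y' c (h2 y' hy')
    rw [← h5] at h4
    exact hyy (MulAction.injective g h4)
  -- injective subsequence
  obtain ⟨ψ, hψ, hinj⟩ : ∃ ψ : ℕ → ℕ, StrictMono ψ ∧ Function.Injective (fun n => γ (ψ n)) := by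
    classical
    have hstep : ∀ (F : Finset Γ) (N : ℕ), ∃ n, N ≤ n ∧ γ n ∉ F := by
      intro F N
      by_contra hcon
      push Not at hcon
      apply hinf
      apply ((F : Set Γ).toFinite.union ((Finset.range N).image γ : Set Γ).toFinite).subset
      rintro _ ⟨n, rfl⟩
      by_cases hn : N ≤ n
      · exact Or.inl (hcon n hn)
      · right
        simp only [Finset.coe_image, Finset.coe_range, Set.mem_image, Set.mem_Iio]
        exact ⟨n, by omega, rfl⟩
    have key : ∃ ψ : ℕ → ℕ, ∀ n, (∀ m < n, ψ m < ψ n ∧ γ (ψ m) ≠ γ (ψ n)) := by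
      choose nx hnx1 hnx2 using hstep
      let st : ℕ → List ℕ := fun n => Nat.rec [nx ∅ 0]
        (fun _ l => nx (l.map γ).toFinset (l.sum + 1) :: l) n
      have hst : ∀ n, st (n + 1) = nx ((st n).map γ).toFinset ((st n).sum + 1) :: st n :=
        fun n => rfl
      have hhd : ∀ n, (st n).headI ∈ st n := by
        intro n
        cases n with
        | zero => exact List.mem_cons_self
        | succ n => exact List.mem_cons_self
      have hsub : ∀ m n, m ≤ n → ∀ x ∈ st m, x ∈ st n := by
        intro m n hmn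
        induction n, hmn using Nat.le_induction with
        | base => exact fun x hx => hx
        | succ n _ ih =>
          intro x hx
          rw [hst]
          exact List.mem_cons_of_mem _ (ih x hx)
      refine ⟨fun n => (st n).headI, fun n m hmn => ?_⟩
      obtain ⟨k, rfl⟩ : ∃ k, n = k + 1 := ⟨n - 1, by omega⟩
      have hm : (st m).headI ∈ st k := hsub m k (by omega) _ (hhd m)
      have e : (st (k + 1)).headI = nx ((st k).map γ).toFinset ((st k).sum + 1) := by
        rw [hst]; rfl
      simp only [e]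
      constructor
      · have h1 := hnx1 ((st k).map γ).toFinset ((st k).sum + 1)
        have h2 : (st m).headI ≤ (st k).sum := List.single_le_sum (by simp) _ hm
        omega
      · have h1 := hnx2 ((st k).map γ).toFinset ((st k).sum + 1)
        intro h
        apply h1
        rw [← h, List.mem_toFinset]
        exact List.mem_map_of_mem hm
    obtain ⟨ψ, hψ⟩ := key
    refine ⟨ψ, fun m n hmn => (hψ n m hmn).1, fun m n hmn => ?_⟩
    by_contra hne'
    rcases Nat.lt_or_gt_of_ne hne' with h | h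
    · exact (hψ n m h).2 hmn
    · exact (hψ m n h).2 hmn.symm
  obtain ⟨φ, hφ, a, b', hab⟩ := hconv _ hinj
  have hsub := (hψ.comp hφ).tendsto_atTop
  -- images converge to `f a`
  have himg : ∀ w : X, w ≠ b' → Tendsto (fun n => γ (ψ (φ n)) • f w) atTop (𝓝 (f a)) := by
    intro w hw
    have := (hf.tendsto a).comp (hab.tendsto hw)
    simpa only [Function.comp_def, he] using this
  have hb : b = f a := by
    rcases ne_or_eq x b' with h | h
    · have := himg x h
      rw [hx] at this
      exact tendsto_nhds_unique (h1.comp hsub) this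
    · have h' : x' ≠ b' := fun h3 => hne (h.trans h3.symm)
      have := himg x' h'
      rw [hx'] at this
      exact tendsto_nhds_unique (h1.comp hsub) this
  obtain ⟨w, rfl⟩ := hs y
  obtain ⟨w', rfl⟩ := hs y'
  have hc : c = f a := by
    rcases ne_or_eq w b' with h | h
    · exact tendsto_nhds_unique ((h2 _ hy).comp hsub) (himg w h)
    · have h' : w' ≠ b' := fun h3 => hyy (by rw [h, h3])
      exact tendsto_nhds_unique ((h2 _ hy').comp hsub) (himg w' h')
  exact hbc (hb.trans hc.symm)

end push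

variable {r : ℕ}

/-- The boundary of the free group of rank `r`, i.e. the space of ends of its Cayley tree. An end
is encoded by the function which assigns to each vertex `v` the label of the first edge of the ray
from `v` to the end. -/
def Bd (r : ℕ) : Type :=
  {ξ : FreeGroup (Fin r) → Fin r × Bool // ∀ (v : FreeGroup (Fin r)) (a : Fin r × Bool),
    ξ (v * lt a) = inv' a ↔ ξ v ≠ a}

instance : TopologicalSpace (Bd r) := instTopologicalSpaceSubtype

instance : T2Space (Bd r) := inferInstanceAs (T2Space {ξ : FreeGroup (Fin r) → Fin r × Bool //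
  ∀ (v : FreeGroup (Fin r)) (a : Fin r × Bool), ξ (v * lt a) = inv' a ↔ ξ v ≠ a})

instance : MulAction (FreeGroup (Fin r)) (Bd r) where
  smul g ξ := ⟨fun v => ξ.1 (g⁻¹ * v), fun v a => by
    have h := ξ.2 (g⁻¹ * v) a
    rw [mul_assoc] at h
    exact h⟩
  one_smul ξ := by
    apply Subtype.ext
    funext v
    change ξ.1 (1⁻¹ * v) = ξ.1 v
    rw [inv_one, one_mul]
  mul_smul g h ξ := by
    apply Subtype.ext
    funext v
    change ξ.1 ((g * h)⁻¹ * v) = ξ.1 (h⁻¹ * (g⁻¹ * v))
    rw [mul_inv_rev, mul_assoc]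

lemma Bd.smul_apply (g : FreeGroup (Fin r)) (ξ : Bd r) (v : FreeGroup (Fin r)) :
    (g • ξ).1 v = ξ.1 (g⁻¹ * v) := rfl

lemma continuous_eval (v : FreeGroup (Fin r)) : Continuous fun ξ : Bd r => ξ.1 v :=
  (continuous_apply v).comp continuous_subtype_val

lemma isOpen_eval (v : FreeGroup (Fin r)) (s : Set (Fin r × Bool)) :
    IsOpen {ξ : Bd r | ξ.1 v ∈ s} := (isOpen_discrete s).preimage (continuous_eval v)

instance : CompactSpace (Bd r) := by
  have hcl : IsClosed {ξ : FreeGroup (Fin r) → Fin r × Bool |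
      ∀ (v : FreeGroup (Fin r)) (a : Fin r × Bool), ξ (v * lt a) = inv' a ↔ ξ v ≠ a} := by
    simp only [Set.ofPred_forall]
    refine isClosed_iInter fun v => isClosed_iInter fun a => ?_
    have : {ξ : FreeGroup (Fin r) → Fin r × Bool | ξ (v * lt a) = inv' a ↔ ξ v ≠ a} =
        (fun ξ : FreeGroup (Fin r) → Fin r × Bool => (ξ (v * lt a), ξ v)) ⁻¹'
          {p | p.1 = inv' a ↔ p.2 ≠ a} := rfl
    rw [this]
    exact (isClosed_discrete _).preimage ((continuous_apply _).prodMk (continuous_apply _))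
  exact isCompact_iff_compactSpace.1 hcl.isCompact

instance : ContinuousConstSMul (FreeGroup (Fin r)) (Bd r) where
  continuous_const_smul g := by
    apply Continuous.subtype_mk
    exact continuous_pi fun v => continuous_eval _

/-- Given two vertices `u ≠ v`, an end is seen from `v` in the direction of `u` or from `u` in the
direction of `v`. -/
lemma dir_or (ξ : Bd r) : ∀ (L : List (Fin r × Bool)) (v u : FreeGroup (Fin r)),
    (v⁻¹ * u).toWord = L → u ≠ v → dir v u ≠ some (ξ.1 v) → dir u v = some (ξ.1 u) := by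
  intro L
  induction L with
  | nil =>
    intro v u hL hne
    exfalso
    rw [toWord_eq_nil_iff, inv_mul_eq_one] at hL
    exact hne hL.symm
  | cons a L ih =>
    intro v u hL _ hd1
    have hLr : IsReduced (a :: L) := by rw [← hL]; exact isReduced_toWord
    have hLr' : IsReduced L := hLr.tail
    have hL' : (FreeGroup.mk L).toWord = L := by rw [toWord_mk, hLr'.reduce_eq]
    have hmul : v⁻¹ * u = lt a * FreeGroup.mk L := by
      rw [← FreeGroup.mk_toWord (x := v⁻¹ * u), hL, lt, FreeGroup.mul_mk]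
      rfl
    have hu : (v * lt a)⁻¹ * u = FreeGroup.mk L := by
      rw [mul_inv_rev, mul_assoc, hmul]
      group
    have h1 : ξ.1 v ≠ a := by
      intro h
      apply hd1
      unfold dir hd
      rw [hL, h]
      rfl
    have h2 : ξ.1 (v * lt a) = inv' a := (ξ.2 v a).2 h1
    have hword : (u⁻¹ * v).toWord = (invRev L) ++ [inv' a] := by
      have : u⁻¹ * v = (v⁻¹ * u)⁻¹ := by group
      rw [this, toWord_inv, hL]
      simp [invRev, inv']
    by_cases hu1 : u = v * lt a
    · have hLnil : L = [] := by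
        rw [hu1, inv_mul_cancel] at hu
        rw [← hL', ← hu, toWord_one]
      unfold dir hd
      rw [hword, hLnil, hu1, h2]
      rfl
    · have hd2 : dir (v * lt a) u ≠ some (ξ.1 (v * lt a)) := by
        unfold dir hd
        rw [hu, hL', h2]
        intro h
        obtain ⟨t, ht⟩ := List.head?_eq_some_iff.1 h
        rw [ht] at hLr
        unfold FreeGroup.IsReduced at hLr
        rw [List.isChain_cons_cons] at hLr
        exact red_iff.1 hLr.1 rfl
      have h3 := ih (v * lt a) u (by rw [hu, hL']) hu1 hd2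
      rw [← h3]
      unfold dir hd
      have hword2 : (u⁻¹ * (v * lt a)).toWord = invRev L := by
        have : u⁻¹ * (v * lt a) = ((v * lt a)⁻¹ * u)⁻¹ := by group
        rw [this, toWord_inv, hu, hL']
      rw [hword, hword2]
      have hLne : invRev L ≠ [] := by
        intro h
        rw [h] at hword2
        rw [toWord_eq_nil_iff, inv_mul_eq_one] at hword2
        exact hu1 hword2
      obtain ⟨b, M, hbM⟩ := List.exists_cons_of_ne_nil hLne
      rw [hbM]
      rfl

lemma dir_or' (ξ : Bd r) (v u : FreeGroup (Fin r)) (hne : u ≠ v) (h : dir v u ≠ some (ξ.1 v)) :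
    dir u v = some (ξ.1 u) := dir_or ξ _ v u rfl hne h

/-- The sequence `h` of vertices of the tree converges to `ξ`. -/
def ConvDir (h : ℕ → FreeGroup (Fin r)) (ξ : FreeGroup (Fin r) → Fin r × Bool) : Prop :=
  ∀ v, ∀ᶠ n in atTop, dir v (h n) = some (ξ v)

lemma ConvDir.mem {h : ℕ → FreeGroup (Fin r)} {ξ : FreeGroup (Fin r) → Fin r × Bool}
    (hc : ConvDir h ξ) (v : FreeGroup (Fin r)) (a : Fin r × Bool) :
    ξ (v * lt a) = inv' a ↔ ξ v ≠ a := by
  obtain ⟨n, h1, h2⟩ := ((hc (v * lt a)).and (hc v)).exists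
  have h3 := hd_lt_mul_iff a (v⁻¹ * h n)
  have e : lt (inv' a) * (v⁻¹ * h n) = (v * lt a)⁻¹ * h n := by
    rw [lt_inv']; group
  rw [e] at h3
  unfold dir at h1 h2
  rw [h1, h2] at h3
  simpa using h3

/-- The limit of a sequence of vertices. -/
def ConvDir.lim {h : ℕ → FreeGroup (Fin r)} {ξ : FreeGroup (Fin r) → Fin r × Bool}
    (hc : ConvDir h ξ) : Bd r := ⟨ξ, hc.mem⟩

lemma finite_norm_le (R : ℕ) : {h : FreeGroup (Fin r) | h.norm ≤ R}.Finite := by
  have : (FreeGroup.toWord '' {h : FreeGroup (Fin r) | h.norm ≤ R}).Finite := by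
    refine (List.finite_length_le (Fin r × Bool) R).subset ?_
    rintro _ ⟨h, hh, rfl⟩
    exact hh
  exact Set.Finite.of_finite_image this FreeGroup.toWord_injective.injOn

lemma norm_tendsto {h : ℕ → FreeGroup (Fin r)} (hinj : Function.Injective h) (M : ℕ) :
    ∀ᶠ n in atTop, M < (h n).norm := by
  have h1 := hinj.tendsto_cofinite
  rw [Nat.cofinite_eq_atTop] at h1
  have h2 := h1.eventually (finite_norm_le (r := r) M).eventually_cofinite_notMem
  filter_upwards [h2] with n hn
  simpa using hn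

instance : Countable (FreeGroup (Fin r)) := by
  have : Function.Injective (FreeGroup.toWord : FreeGroup (Fin r) → List (Fin r × Bool)) :=
    FreeGroup.toWord_injective
  exact this.countable

lemma extract_dir (h : ℕ → FreeGroup (Fin r)) (hinj : Function.Injective h) :
    ∃ φ : ℕ → ℕ, StrictMono φ ∧ ∃ ξ, ConvDir (fun n => h (φ n)) ξ := by
  let _ : TopologicalSpace (Option (Fin r × Bool)) := ⊥
  have _ : DiscreteTopology (Option (Fin r × Bool)) := ⟨rfl⟩
  obtain ⟨a, φ, hφ, hlim⟩ := CompactSpace.tendsto_subseq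
    (fun n => (fun v => dir v (h n) : FreeGroup (Fin r) → Option (Fin r × Bool)))
  have h1 : ∀ v, ∀ᶠ n in atTop, dir v (h (φ n)) = a v := by
    intro v
    have := (tendsto_pi_nhds.1 hlim) v
    rw [nhds_discrete] at this
    exact tendsto_pure.1 this
  have h2 : ∀ v, a v ≠ none := by
    intro v hv
    obtain ⟨n, hn1, hn2⟩ := ((h1 v).and (hφ.tendsto_atTop.eventually
      (norm_tendsto hinj v.norm))).exists
    rw [hv] at hn1
    unfold dir at hn1
    rw [hd_eq_none, inv_mul_eq_one] at hn1
    rw [← hn1] at hn2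
    exact lt_irrefl _ hn2
  refine ⟨φ, hφ, fun v => (a v).get (Option.isSome_iff_ne_none.2 (h2 v)), fun v => ?_⟩
  filter_upwards [h1 v] with n hn
  rw [hn]
  simp

/-- Convergence property of the action on the space of ends. -/
lemma conv_core {h : ℕ → FreeGroup (Fin r)} (hinj : Function.Injective h)
    {ξ ζ : FreeGroup (Fin r) → Fin r × Bool} (h1 : ConvDir h ξ) (h2 : ConvDir (fun n => (h n)⁻¹) ζ) :
    Converges h h1.lim h2.lim := by
  intro K hK hb U hU
  -- separate `K` from `ζ`
  have hcov : ∀ η ∈ K, ∃ w, η.1 w ≠ ζ w := by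
    intro η hη
    by_contra hcon
    push Not at hcon
    apply hb
    have : h2.lim = η := Subtype.ext (funext fun w => (hcon w).symm)
    rw [this]
    exact hη
  obtain ⟨W, hW⟩ := hK.elim_finite_subcover (fun w : FreeGroup (Fin r) => {η : Bd r | η.1 w ≠ ζ w})
    (fun w => isOpen_eval w {ζ w}ᶜ) (by
      intro η hη
      obtain ⟨w, hw⟩ := hcov η hη
      exact Set.mem_iUnion.2 ⟨w, hw⟩)
  -- basic neighbourhood
  obtain ⟨V, hV⟩ : ∃ V : Finset (FreeGroup (Fin r)), ∀ η : Bd r, (∀ v ∈ V, η.1 v = ξ v) → η ∈ U := by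
    rw [show 𝓝 h1.lim = Filter.comap (Subtype.val : Bd r → (FreeGroup (Fin r) → Fin r × Bool))
      (𝓝 ξ) from nhds_induced _ _] at hU
    obtain ⟨U', hU', hUU⟩ := hU
    rw [nhds_pi, Filter.mem_pi'] at hU'
    obtain ⟨V, t, ht, hVt⟩ := hU'
    refine ⟨V, fun η hη => hUU (hVt ?_)⟩
    intro v hv
    rw [hη v hv]
    exact mem_of_mem_nhds (ht v)
  have key : ∀ v, ∀ᶠ n in atTop, ∀ η ∈ K, (h n • η).1 v = ξ v := by
    intro v
    have e1 : ∀ᶠ n in atTop, ∀ w ∈ W, dir w (h n)⁻¹ = some (ζ w) ∧ w.norm + v.norm < (h n).norm := by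
      rw [Filter.eventually_all_finset]
      intro w _
      exact (h2 w).and (norm_tendsto hinj _)
    filter_upwards [e1, h1 v] with n hn1 hn2 η hη
    obtain ⟨w, hw, hηw⟩ := Set.mem_iUnion₂.1 (hW hη)
    obtain ⟨h3, h4⟩ := hn1 w hw
    have h5 : (w⁻¹ * (h n)⁻¹).norm + w.norm ≥ (h n).norm := by
      have := FreeGroup.norm_mul_le w (w⁻¹ * (h n)⁻¹)
      rw [mul_inv_cancel_left, FreeGroup.norm_inv_eq] at this
      omega
    have h6 : (v⁻¹ * h n).norm + v.norm ≥ (h n).norm := by
      have := FreeGroup.norm_mul_le v (v⁻¹ * h n)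
      rw [mul_inv_cancel_left] at this
      omega
    have h7 : dir w ((h n)⁻¹ * v) = some (ζ w) := by
      rw [← h3]
      unfold dir
      rw [← mul_assoc]
      exact hd_mul_of_norm_lt _ _ (by omega)
    have h8 : (h n)⁻¹ * v ≠ w := by
      intro hc
      rw [← hc] at h7
      unfold dir at h7
      rw [inv_mul_cancel] at h7
      have : hd (1 : FreeGroup (Fin r)) = none := hd_eq_none.2 rfl
      rw [this] at h7
      exact absurd h7 (by simp)
    have h9 : dir w ((h n)⁻¹ * v) ≠ some (η.1 w) := by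
      rw [h7]
      intro hc
      exact hηw (Option.some.inj hc).symm
    have h10 := dir_or' η w ((h n)⁻¹ * v) h8 h9
    have h11 : dir ((h n)⁻¹ * v) w = some (ξ v) := by
      rw [← hn2]
      unfold dir
      have : ((h n)⁻¹ * v)⁻¹ * w = v⁻¹ * h n * w := by group
      rw [this]
      exact hd_mul_of_norm_lt _ _ (by omega)
    rw [h11] at h10
    rw [Bd.smul_apply]
    exact (Option.some.inj h10).symm
  have e2 : ∀ᶠ n in atTop, ∀ v ∈ V, ∀ η ∈ K, (h n • η).1 v = ξ v := by
    rw [Filter.eventually_all_finset]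
    exact fun v _ => key v
  filter_upwards [e2] with n hn η hη
  exact hV _ (fun v hv => hn v hv η hη)

/-- The action on the space of ends is a convergence action. -/
lemma conv_bd (γ : ℕ → FreeGroup (Fin r)) (hinj : Function.Injective γ) :
    ∃ φ : ℕ → ℕ, StrictMono φ ∧ ∃ a b : Bd r, Converges (fun n => γ (φ n)) a b := by
  obtain ⟨φ, hφ, ξ, hξ⟩ := extract_dir γ hinj
  have hinj2 : Function.Injective fun n => (γ (φ n))⁻¹ :=
    inv_injective.comp (hinj.comp hφ.injective)
  obtain ⟨ψ, hψ, ζ, hζ⟩ := extract_dir _ hinj2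
  have hξ' : ConvDir (fun n => γ (φ (ψ n))) ξ := fun v => hψ.tendsto_atTop.eventually (hξ v)
  exact ⟨φ ∘ ψ, hφ.comp hψ, hξ'.lim, hζ.lim,
    conv_core (hinj.comp (hφ.injective.comp hψ.injective)) hξ' hζ⟩

/-- If distinct vertices converge to the end `a` then a subsequence of these elements converges to
the constant map `a`. -/
lemma conv_bd_of_dir (γ : ℕ → FreeGroup (Fin r)) (hinj : Function.Injective γ) (a : Bd r)
    (ha : ConvDir γ a.1) :
    ∃ φ : ℕ → ℕ, StrictMono φ ∧ ∃ b : Bd r, Converges (fun n => γ (φ n)) a b := by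
  have hinj2 : Function.Injective fun n => (γ n)⁻¹ := inv_injective.comp hinj
  obtain ⟨ψ, hψ, ζ, hζ⟩ := extract_dir _ hinj2
  have hξ' : ConvDir (fun n => γ (ψ n)) a.1 := fun v => hψ.tendsto_atTop.eventually (ha v)
  exact ⟨ψ, hψ, hζ.lim, conv_core (hinj.comp hψ.injective) hξ' hζ⟩

end Pool.Agent.K1H77.NC
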