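import Mathlib
import Pool.Agent.K1H77.NC.Bd

/-!
A quotient of the boundary of a free group: the geodesic lines without edges labelled `i₀` are
collapsed.
-/

set_option autoImplicit false

namespace Pool.Agent.K1H77.NC

open FreeGroup Filter Topology Pool.Agent.R639.CT Pool.Agent.H322R3.Hyp

variable {r : ℕ}

/-- the vertices from which the end `ξ` is seen along an outgoing edge with label `i₀` -/
def Phi (i₀ : Fin r) (ξ : Bd r) : FreeGroup (Fin r) → Bool := fun v => decide (ξ.1 v = (i₀, true))

lemma continuous_Phi (i₀ : Fin r) : Continuous (Phi i₀) := by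
  apply continuous_pi
  intro v
  exact (continuous_of_discreteTopology (f := fun a : Fin r × Bool => decide (a = (i₀, true)))).comp
    (continuous_eval v)

lemma Phi_smul (i₀ : Fin r) (g : FreeGroup (Fin r)) (ξ : Bd r) (v : FreeGroup (Fin r)) :
    Phi i₀ (g • ξ) v = Phi i₀ ξ (g⁻¹ * v) := rfl

/-- The quotient space, as a subspace of `{0, 1} ^ F`. -/
def Zp (i₀ : Fin r) : Type := Set.range (Phi i₀)

instance (i₀ : Fin r) : TopologicalSpace (Zp i₀) := instTopologicalSpaceSubtype

instance (i₀ : Fin r) : T2Space (Zp i₀) := inferInstanceAs (T2Space (Set.range (Phi i₀)))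

instance (i₀ : Fin r) : SecondCountableTopology (Zp i₀) :=
  inferInstanceAs (SecondCountableTopology (Set.range (Phi i₀)))

instance (i₀ : Fin r) : CompactSpace (Zp i₀) :=
  isCompact_iff_compactSpace.1 (isCompact_range (continuous_Phi i₀))

instance (i₀ : Fin r) : TopologicalSpace.MetrizableSpace (Zp i₀) := inferInstance

/-- `F` acts on the quotient by left translations. -/
instance (i₀ : Fin r) : MulAction (FreeGroup (Fin r)) (Zp i₀) where
  smul g z := ⟨fun v => z.1 (g⁻¹ * v), by
    obtain ⟨ξ, hξ⟩ := z.2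
    exact ⟨g • ξ, funext fun v => by rw [Phi_smul, hξ]⟩⟩
  one_smul z := by
    apply Subtype.ext
    funext v
    change z.1 (1⁻¹ * v) = z.1 v
    rw [inv_one, one_mul]
  mul_smul g h z := by
    apply Subtype.ext
    funext v
    change z.1 ((g * h)⁻¹ * v) = z.1 (h⁻¹ * (g⁻¹ * v))
    rw [mul_inv_rev, mul_assoc]

instance (i₀ : Fin r) : ContinuousConstSMul (FreeGroup (Fin r)) (Zp i₀) where
  continuous_const_smul g := by
    apply Continuous.subtype_mk
    exact continuous_pi fun v => (continuous_apply (g⁻¹ * v)).comp continuous_subtype_val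

/-- the projection -/
def proj (i₀ : Fin r) (ξ : Bd r) : Zp i₀ := ⟨Phi i₀ ξ, ξ, rfl⟩

lemma continuous_proj (i₀ : Fin r) : Continuous (proj i₀) := (continuous_Phi i₀).subtype_mk _

lemma proj_surj (i₀ : Fin r) : Function.Surjective (proj i₀) := by
  rintro ⟨_, ξ, rfl⟩
  exact ⟨ξ, rfl⟩

lemma proj_smul (i₀ : Fin r) (g : FreeGroup (Fin r)) (ξ : Bd r) :
    proj i₀ (g • ξ) = g • proj i₀ ξ := rfl

/-- The action on the quotient is a convergence action. -/
lemma conv_Zp (i₀ : Fin r) : IsConvergenceAction (FreeGroup (Fin r)) (Zp i₀) := by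
  intro γ hγ
  obtain ⟨φ, hφ, a, b, h⟩ := conv_bd γ hγ
  exact ⟨φ, hφ, proj i₀ a, proj i₀ b,
    h.push (proj i₀) (continuous_proj i₀) (proj_surj i₀) (proj_smul i₀)⟩

/-! ### Infinite words -/

/-- infinite reduced words -/
def RedW (w : ℕ → Fin r × Bool) : Prop := ∀ n, w (n + 1) ≠ inv' (w n)

/-- initial segments -/
def pre (w : ℕ → Fin r × Bool) (n : ℕ) : FreeGroup (Fin r) := FreeGroup.mk ((List.range n).map w)

lemma isReduced_pre {w : ℕ → Fin r × Bool} (hw : RedW w) (n : ℕ) :
    IsReduced ((List.range n).map w) := by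
  induction n with
  | zero => simp
  | succ n ih =>
    rw [List.range_succ, List.map_append]
    unfold FreeGroup.IsReduced at ih ⊢
    rw [List.isChain_append]
    refine ⟨ih, by simp, ?_⟩
    intro x hx y hy
    simp only [List.map_cons, List.map_nil, List.head?_cons, Option.mem_def,
      Option.some.injEq] at hy
    subst hy
    cases n with
    | zero => simp at hx
    | succ m =>
      rw [List.range_succ, List.map_append] at hx
      simp only [List.map_cons, List.map_nil, List.getLast?_append, List.getLast?_singleton,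
        Option.some_or, Option.mem_def, Option.some.injEq] at hx
      subst hx
      exact red_iff.2 (hw m)

lemma toWord_pre {w : ℕ → Fin r × Bool} (hw : RedW w) (n : ℕ) :
    (pre w n).toWord = (List.range n).map w := by
  unfold pre
  rw [toWord_mk, (isReduced_pre hw n).reduce_eq]

lemma norm_pre {w : ℕ → Fin r × Bool} (hw : RedW w) (n : ℕ) : (pre w n).norm = n := by
  unfold FreeGroup.norm
  rw [toWord_pre hw, List.length_map, List.length_range]

lemma pre_injective {w : ℕ → Fin r × Bool} (hw : RedW w) : Function.Injective (pre w) := by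
  intro m n hmn
  rw [← norm_pre hw m, hmn, norm_pre hw]

lemma pre_succ (w : ℕ → Fin r × Bool) (n : ℕ) : pre w (n + 1) = pre w n * lt (w n) := by
  unfold pre lt
  rw [FreeGroup.mul_mk, List.range_succ, List.map_append]
  rfl

lemma lcp_map_range (w : ℕ → Fin r × Bool) (m n : ℕ) (h : m ≤ n) :
    lcp ((List.range m).map w) ((List.range n).map w) = m := by
  obtain ⟨k, rfl⟩ := Nat.exists_eq_add_of_le h
  rw [List.range_add, List.map_append]
  have key : ∀ l m : List (Fin r × Bool), lcp l (l ++ m) = l.length := by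
    intro l m
    induction l with
    | nil => simp [lcp_nil_left]
    | cons a l ih => simp [lcp_cons_cons, ih]
  rw [key]
  simp

lemma dir_pre {w : ℕ → Fin r × Bool} (hw : RedW w) (v : FreeGroup (Fin r)) (m n : ℕ)
    (hm : v.norm < m) (hn : m ≤ n) : dir v (pre w m) = dir v (pre w n) ∧
      dir v (pre w m) ≠ none := by
  apply dir_eq_of_lcp
  rw [toWord_pre hw, toWord_pre hw, lcp_map_range w m n hn]
  exact hm

lemma exists_end {w : ℕ → Fin r × Bool} (hw : RedW w) :
    ∃ ξ : Bd r, ConvDir (pre w) ξ.1 := by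
  have h1 : ∀ v : FreeGroup (Fin r), ∃ a, dir v (pre w (v.norm + 1)) = some a := fun v =>
    Option.ne_none_iff_exists'.1 (dir_pre hw v _ _ (Nat.lt_succ_self _) le_rfl).2
  choose ξ hξ using h1
  have hc : ConvDir (pre w) ξ := by
    intro v
    filter_upwards [eventually_ge_atTop (v.norm + 1)] with n hn
    rw [← hξ v, (dir_pre hw v _ _ (Nat.lt_succ_self _) hn).1]
  exact ⟨hc.lim, hc⟩

/-- the end defined by an infinite reduced word -/
noncomputable def endOf {w : ℕ → Fin r × Bool} (hw : RedW w) : Bd r := (exists_end hw).choose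

lemma endOf_conv {w : ℕ → Fin r × Bool} (hw : RedW w) : ConvDir (pre w) (endOf hw).1 :=
  (exists_end hw).choose_spec

lemma endOf_pre {w : ℕ → Fin r × Bool} (hw : RedW w) (n : ℕ) :
    (endOf hw).1 (pre w n) = w n := by
  obtain ⟨m, h1, h2⟩ := ((endOf_conv hw (pre w n)).and (eventually_ge_atTop (n + 1))).exists
  have h3 := dir_pre hw (pre w n) (n + 1) m (by rw [norm_pre hw]; omega) h2
  rw [← h3.1] at h1
  rw [pre_succ] at h1
  unfold dir hd at h1
  rw [inv_mul_cancel_left, lt, toWord_mk] at h1
  simpa using h1.symm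

lemma mem_limitSet (i₀ : Fin r) {w : ℕ → Fin r × Bool} (hw : RedW w) :
    proj i₀ (endOf hw) ∈ limitSet (FreeGroup (Fin r)) (Zp i₀) := by
  obtain ⟨φ, hφ, b, hb⟩ := conv_bd_of_dir (pre w) (pre_injective hw) (endOf hw) (endOf_conv hw)
  exact ⟨_, proj i₀ b, (pre_injective hw).comp hφ.injective,
    hb.push (proj i₀) (continuous_proj i₀) (proj_surj i₀) (proj_smul i₀)⟩

/-! ### The ends which avoid `i₀` -/

/-- The reduced word of `g` does not contain `i₀`. -/
def Avoid (i₀ : Fin r) (g : FreeGroup (Fin r)) : Prop := ∀ x ∈ g.toWord, x.1 ≠ i₀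

lemma mem_of_reduce (L : List (Fin r × Bool)) {x : Fin r × Bool} (hx : x ∈ reduce L) : x ∈ L :=
  (FreeGroup.reduce.red (L := L)).sublist.subset hx

lemma Avoid.inv_mul {i₀ : Fin r} {g h : FreeGroup (Fin r)} (hg : Avoid i₀ g) (hh : Avoid i₀ h) :
    Avoid i₀ (g⁻¹ * h) := by
  intro x hx
  rw [toWord_mul] at hx
  rcases List.mem_append.1 (mem_of_reduce _ hx) with h1 | h1
  · rw [toWord_inv] at h1
    unfold invRev at h1
    rw [List.mem_reverse, List.mem_map] at h1
    obtain ⟨y, hy, rfl⟩ := h1
    exact hg y hy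
  · exact hh x h1

/-- the ends of the subtree spanned by the elements which avoid `i₀` -/
def Lam (i₀ : Fin r) : Set (Bd r) := {ξ | ∀ v, Avoid i₀ v → (ξ.1 v).1 ≠ i₀}

lemma proj_eq_of_Lam (i₀ : Fin r) {ξ η : Bd r} (hξ : ξ ∈ Lam i₀) (hη : η ∈ Lam i₀) :
    proj i₀ ξ = proj i₀ η := by
  apply Subtype.ext
  funext v
  change decide (ξ.1 v = (i₀, true)) = decide (η.1 v = (i₀, true))
  by_cases hv : Avoid i₀ v
  · have h1 : ξ.1 v ≠ (i₀, true) := fun h => hξ v hv (by rw [h])
    have h2 : η.1 v ≠ (i₀, true) := fun h => hη v hv (by rw [h])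
    simp [h1, h2]
  · -- `v = p q` with `p` avoiding `i₀` and `q` beginning with `i₀`
    obtain ⟨p, a, hp, ha, hdir⟩ : ∃ (p : FreeGroup (Fin r)) (a : Fin r × Bool), Avoid i₀ p ∧
        a.1 = i₀ ∧ dir p v = some a := by
      set L := v.toWord with hL
      have hsplit : L.takeWhile (fun x => decide (x.1 ≠ i₀)) ++
          L.dropWhile (fun x => decide (x.1 ≠ i₀)) = L := List.takeWhile_append_dropWhile
      have hne : L.dropWhile (fun x => decide (x.1 ≠ i₀)) ≠ [] := by
        intro h
        apply hv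
        rw [List.dropWhile_eq_nil_iff] at h
        intro x hx
        simpa using h x hx
      obtain ⟨a, M, haM⟩ := List.exists_cons_of_ne_nil hne
      have ha : a.1 = i₀ := by
        have := List.head_dropWhile_not (fun x : Fin r × Bool => decide (x.1 ≠ i₀)) hne
        simp only [haM, List.head_cons] at this
        simpa using this
      have hr : IsReduced (L.takeWhile (fun x => decide (x.1 ≠ i₀)) ++
          L.dropWhile (fun x => decide (x.1 ≠ i₀))) := by
        rw [hsplit]; exact isReduced_toWord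
      have hr1 : IsReduced (L.takeWhile (fun x => decide (x.1 ≠ i₀))) := by
        unfold FreeGroup.IsReduced at hr ⊢
        exact (List.isChain_append.mp hr).1
      have hr2 : IsReduced (a :: M) := by
        rw [haM] at hr
        unfold FreeGroup.IsReduced at hr ⊢
        exact (List.isChain_append.mp hr).2.1
      refine ⟨FreeGroup.mk (L.takeWhile (fun x => decide (x.1 ≠ i₀))), a, ?_, ha, ?_⟩
      · intro x hx
        rw [toWord_mk, hr1.reduce_eq] at hx
        simpa using List.mem_takeWhile_imp hx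
      · unfold dir hd
        have e : (FreeGroup.mk (L.takeWhile (fun x => decide (x.1 ≠ i₀))))⁻¹ * v =
            FreeGroup.mk (a :: M) := by
          rw [inv_mul_eq_iff_eq_mul, FreeGroup.mul_mk, ← haM, hsplit, hL, mk_toWord]
        rw [e, toWord_mk, hr2.reduce_eq]
        rfl
    have hpv : v ≠ p := fun h => hv (h ▸ hp)
    have h1 := dir_or' ξ p v hpv (by
      rw [hdir]
      intro h
      apply hξ p hp
      rw [← Option.some.inj h, ha])
    have h2 := dir_or' η p v hpv (by
      rw [hdir]
      intro h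
      apply hη p hp
      rw [← Option.some.inj h, ha])
    rw [h1] at h2
    rw [Option.some.inj h2]

lemma endOf_mem_Lam (i₀ : Fin r) {w : ℕ → Fin r × Bool} (hw : RedW w) (h : ∀ n, (w n).1 ≠ i₀) :
    endOf hw ∈ Lam i₀ := by
  intro v hv
  obtain ⟨n, hn⟩ := (endOf_conv hw v).exists
  have h1 : Avoid i₀ (pre w n) := by
    intro x hx
    rw [toWord_pre hw, List.mem_map] at hx
    obtain ⟨k, _, rfl⟩ := hx
    exact h k
  have h2 := hv.inv_mul h1
  unfold dir hd at hn
  exact h2 _ (List.mem_of_head? hn)

end Pool.Agent.K1H77.NC
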