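import Mathlib
import Pool.Agent.K1H77.NC.Zsp
import Pool.Agent.R639.CT.Defs

/-!
The map from the Gromov boundary of the free group (sequential model) to the space of ends and to
its quotient.
-/

set_option autoImplicit false

namespace Pool.Agent.K1H77.NC

open FreeGroup Filter Topology Pool.Agent.R639.CT Pool.Agent.H322R3.Hyp

variable {r : ℕ}

lemma redW_const (a : Fin r × Bool) : RedW (fun _ : ℕ => a) := fun _ => (inv'_ne a).symm

/-! ### limit set and non-conical point -/

lemma two_ends_ne {a b : Fin r × Bool} (hab : a ≠ b) : endOf (redW_const a) ≠ endOf (redW_const b)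
    := by
  intro h
  have h1 := endOf_pre (redW_const a) 0
  have h2 := endOf_pre (redW_const b) 0
  have e : pre (fun _ : ℕ => a) 0 = pre (fun _ : ℕ => b) 0 := rfl
  rw [h, e, h2] at h1
  exact hab h1.symm

lemma proj_pos (i₀ : Fin r) : (proj i₀ (endOf (redW_const (i₀, true)))).1 1 = true := by
  have h1 := endOf_pre (redW_const ((i₀, true) : Fin r × Bool)) 0
  have e : pre (fun _ : ℕ => ((i₀, true) : Fin r × Bool)) 0 = 1 := rfl
  rw [e] at h1
  change decide (_ = _) = true
  rw [h1]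
  simp

lemma proj_neg (i₀ : Fin r) (n : ℕ) : (proj i₀ (endOf (redW_const (i₀, false)))).1
    (pre (fun _ : ℕ => ((i₀, false) : Fin r × Bool)) n) = false := by
  have h1 := endOf_pre (redW_const ((i₀, false) : Fin r × Bool)) n
  change decide (_ = _) = false
  rw [h1]
  simp

lemma avoid_one (i₀ : Fin r) : Avoid i₀ (1 : FreeGroup (Fin r)) := by
  intro x hx
  simp at hx

lemma Lam_one (i₀ : Fin r) {ξ : Bd r} (h : ξ ∈ Lam i₀) : (proj i₀ ξ).1 1 = false := by
  have := h 1 (avoid_one i₀)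
  change decide (_ = _) = false
  rw [decide_eq_false_iff_not]
  intro h2
  exact this (by rw [h2])

lemma Lam_inv (i₀ : Fin r) {ξ : Bd r} (h : ξ ∈ Lam i₀) :
    (proj i₀ ξ).1 (pre (fun _ : ℕ => ((i₀, false) : Fin r × Bool)) 1) = true := by
  have h1 := h 1 (avoid_one i₀)
  have h2 := (ξ.2 1 (i₀, false)).2 (fun h3 => h1 (by rw [h3]))
  change decide (_ = _) = true
  rw [decide_eq_true_iff]
  have e : pre (fun _ : ℕ => ((i₀, false) : Fin r × Bool)) 1 = 1 * lt (i₀, false) := by
    rw [one_mul]; rfl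
  rw [e, h2]
  rfl

section

variable {i₀ : Fin r} {a b : Fin r × Bool} (ha : a.1 ≠ i₀) (hb : b.1 ≠ i₀) (hab : a ≠ b)

include ha

lemma three_points : 3 ≤ (limitSet (FreeGroup (Fin r)) (Zp i₀)).encard := by
  set z := proj i₀ (endOf (redW_const a)) with hz
  set z1 := proj i₀ (endOf (redW_const (i₀, true))) with hz1
  set z2 := proj i₀ (endOf (redW_const (i₀, false))) with hz2
  have hL : endOf (redW_const a) ∈ Lam i₀ := endOf_mem_Lam i₀ _ (fun _ => ha)
  have h1 : z ≠ z1 := by
    intro h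
    have e1 := Lam_one i₀ hL
    have e2 := proj_pos i₀
    rw [← hz] at e1
    rw [← hz1, ← h, e1] at e2
    exact absurd e2 (by simp)
  have h2 : z ≠ z2 := by
    intro h
    have e1 := Lam_inv i₀ hL
    have e2 := proj_neg i₀ 1
    rw [← hz] at e1
    rw [← hz2, ← h, e1] at e2
    exact absurd e2 (by simp)
  have h3 : z1 ≠ z2 := by
    intro h
    have e1 := proj_pos i₀
    have e2 := proj_neg i₀ 0
    have e : pre (fun _ : ℕ => ((i₀, false) : Fin r × Bool)) 0 = 1 := rfl
    rw [e, ← hz2, ← h, hz1, e1] at e2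
    exact absurd e2 (by simp)
  have hsub : ({z, z1, z2} : Set (Zp i₀)) ⊆ limitSet (FreeGroup (Fin r)) (Zp i₀) := by
    intro y hy
    rcases hy with rfl | rfl | rfl
    · exact mem_limitSet i₀ _
    · exact mem_limitSet i₀ _
    · exact mem_limitSet i₀ _
  refine le_trans ?_ (Set.encard_le_encard hsub)
  rw [Set.encard_insert_of_notMem (by simp [h1, h2]), Set.encard_pair h3]
  norm_num

include hb hab

lemma nonconical {ξ : Bd r} (hξ : ξ ∈ Lam i₀) :
    proj i₀ ξ ∈ limitSet (FreeGroup (Fin r)) (Zp i₀) ∧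
      ¬ IsConicalPt (FreeGroup (Fin r)) (proj i₀ ξ) := by
  have hLa : endOf (redW_const a) ∈ Lam i₀ := endOf_mem_Lam i₀ _ (fun _ => ha)
  have hLb : endOf (redW_const b) ∈ Lam i₀ := endOf_mem_Lam i₀ _ (fun _ => hb)
  rw [proj_eq_of_Lam i₀ hξ hLa]
  refine ⟨mem_limitSet i₀ _, ?_⟩
  set z := proj i₀ (endOf (redW_const a)) with hz
  set z1 := proj i₀ (endOf (redW_const (i₀, true))) with hz1
  set z2 := proj i₀ (endOf (redW_const (i₀, false))) with hz2
  have h1 : z1 ≠ z := by
    intro h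
    have e1 := Lam_one i₀ hLa
    have e2 := proj_pos i₀
    rw [← hz] at e1
    rw [← hz1, h, e1] at e2
    exact absurd e2 (by simp)
  have h2 : z2 ≠ z := by
    intro h
    have e1 := Lam_inv i₀ hLa
    have e2 := proj_neg i₀ 1
    rw [← hz] at e1
    rw [← hz2, h, e1] at e2
    exact absurd e2 (by simp)
  have h3 : z1 ≠ z2 := by
    intro h
    have e1 := proj_pos i₀
    have e2 := proj_neg i₀ 0
    have e : pre (fun _ : ℕ => ((i₀, false) : Fin r × Bool)) 0 = 1 := rfl
    rw [e, ← hz2, ← h, hz1, e1] at e2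
    exact absurd e2 (by simp)
  exact not_conical_of_two (proj i₀) (continuous_proj i₀) (proj_surj i₀) (proj_smul i₀) conv_bd
    rfl (proj_eq_of_Lam i₀ hLb hLa) (two_ends_ne hab) h1 h2 h3

end

/-! ### The Gromov boundary -/

lemma gprod_basis (x y : FreeGroup (Fin r)) : gprod (basis r) 1 x y = lcp x.toWord y.toWord :=
  gprod_free x y

lemma lcp_large {x y : ℕ → FreeGroup (Fin r)}
    (h : Tendsto (fun p : ℕ × ℕ => gprod (basis r) 1 (x p.1) (y p.2)) atTop atTop) (M : ℕ) :
    ∃ N, ∀ i j, N ≤ i → N ≤ j → M < lcp (x i).toWord (y j).toWord := by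
  have h1 := h.eventually (eventually_gt_atTop (M : ℝ))
  rw [eventually_atTop] at h1
  obtain ⟨⟨N1, N2⟩, hN⟩ := h1
  refine ⟨max N1 N2, fun i j hi hj => ?_⟩
  have := hN (i, j) ⟨(le_max_left _ _).trans hi, (le_max_right _ _).trans hj⟩
  simp only [gprod_basis] at this
  exact_mod_cast this

lemma exists_dir_of_seq (x : InfSeq (basis r)) : ∃ ξ, ConvDir x.1 ξ := by
  have h1 : ∀ v : FreeGroup (Fin r), ∃ a, ∀ᶠ n in atTop, dir v (x.1 n) = some a := by
    intro v
    obtain ⟨N, hN⟩ := lcp_large x.2 v.norm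
    obtain ⟨a, ha⟩ := Option.ne_none_iff_exists'.1
      (dir_eq_of_lcp v (x.1 N) (x.1 N) (hN N N le_rfl le_rfl)).2
    refine ⟨a, ?_⟩
    filter_upwards [eventually_ge_atTop N] with n hn
    rw [← ha, (dir_eq_of_lcp v (x.1 N) (x.1 n) (hN N n le_rfl hn)).1]
  choose ξ hξ using h1
  exact ⟨ξ, hξ⟩

/-- the end defined by a sequence converging at infinity -/
noncomputable def seqEnd (x : InfSeq (basis r)) : Bd r := (exists_dir_of_seq x).choose_spec.lim

lemma seqEnd_conv (x : InfSeq (basis r)) : ConvDir x.1 (seqEnd x).1 :=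
  (exists_dir_of_seq x).choose_spec

lemma ConvDir.unique {h h' : ℕ → FreeGroup (Fin r)} {ξ η : Bd r} (h1 : ConvDir h ξ.1)
    (h2 : ConvDir h' η.1) (v : FreeGroup (Fin r)) (M : ℕ)
    (he : ∃ N, ∀ i j, N ≤ i → N ≤ j → M < lcp (h i).toWord (h' j).toWord) (hv : v.norm ≤ M) :
    ξ.1 v = η.1 v := by
  obtain ⟨N, hN⟩ := he
  obtain ⟨i, hi1, hi2⟩ := ((h1 v).and (eventually_ge_atTop N)).exists
  obtain ⟨j, hj1, hj2⟩ := ((h2 v).and (eventually_ge_atTop N)).exists
  have := (dir_eq_of_lcp v (h i) (h' j) (lt_of_le_of_lt hv (hN i j hi2 hj2))).1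
  rw [hi1, hj1] at this
  exact Option.some.inj this

/-- The identification of the Gromov boundary with the space of ends. -/
noncomputable def toBd : Boundary (basis r) → Bd r :=
  Quot.lift seqEnd (by
    intro x y hxy
    apply Subtype.ext
    funext v
    exact (seqEnd_conv x).unique (seqEnd_conv y) v v.norm (lcp_large hxy _) le_rfl)

lemma toBd_mk (x : InfSeq (basis r)) : toBd (bmk (basis r) x) = seqEnd x := rfl

lemma toBd_bsmul (hS : Subgroup.closure (basis r) = ⊤) (g : FreeGroup (Fin r))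
    (p : Boundary (basis r)) : toBd (bsmul hS g p) = g • toBd p := by
  obtain ⟨x, rfl⟩ := Quot.exists_rep p
  change seqEnd (translate hS g x) = g • seqEnd x
  apply Subtype.ext
  funext v
  obtain ⟨n, h1, h2⟩ := ((seqEnd_conv (translate hS g x) v).and
    (seqEnd_conv x (g⁻¹ * v))).exists
  rw [Bd.smul_apply]
  have h3 : dir v ((translate hS g x).1 n) = dir (g⁻¹ * v) (x.1 n) := dir_mul_left g v (x.1 n)
  rw [h1, h2] at h3
  exact Option.some.inj h3

lemma continuous_toBd : Continuous (toBd : Boundary (basis r) → Bd r) := by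
  apply Continuous.subtype_mk
  apply continuous_pi
  intro v
  rw [continuous_discrete_rng]
  intro a p hp
  refine ⟨(v.norm : ℝ) + 1, ?_⟩
  rintro q ⟨x, y, hx, hy, N, hN⟩
  have h1 := (seqEnd_conv x).unique (seqEnd_conv y) v v.norm ⟨N, fun i j hi hj => by
    have := hN i j hi hj
    rw [gprod_basis] at this
    have h2 : v.norm + 1 ≤ lcp (x.1 i).toWord (y.1 j).toWord := by exact_mod_cast this
    omega⟩ le_rfl
  rw [← hx] at hp
  rw [← hy]
  change (seqEnd y).1 v = a
  rw [← h1]
  exact hp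

end Pool.Agent.K1H77.NC
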