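import Mathlib
import Pool.Agent.K1H77.NC.Map
import Pool.Agent.R639.CT.Main

/-!
A lower bound for the Hausdorff dimension of the set of the ends given by positive words.
-/

set_option autoImplicit false

namespace Pool.Agent.K1H77.NC

open FreeGroup Filter Topology Pool.Agent.R639.CT Pool.Agent.H322R3.Hyp

variable {r : ℕ}

/-! ### geometry of tree actions -/

lemma reduce_invRev_append' (l m : List (Fin r × Bool)) (hl : IsReduced l) (hm : IsReduced m) :
    reduce (invRev l ++ m) = invRev (l.drop (lcp l m)) ++ m.drop (lcp l m) := by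
  induction l generalizing m with
  | nil => simp [lcp_nil_left, hm.reduce_eq]
  | cons a l ih =>
    cases m with
    | nil => simp only [List.append_nil, lcp_nil_right, List.drop_zero,
        (isReduced_invRev hl).reduce_eq]
    | cons b m =>
      rw [lcp_cons_cons]
      by_cases hab : a = b
      · subst hab
        rw [if_pos rfl]
        have h1 : reduce (invRev (a :: l) ++ a :: m) = reduce (invRev l ++ m) := by
          apply reduce.Step.eq
          rw [invRev_cons]
          have : invRev l ++ invRev [a] ++ a :: m = invRev l ++ (a.1, !a.2) :: (a.1, a.2) :: m := by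
            simp [invRev]
          rw [this]
          exact Red.Step.not_rev
        rw [h1, ih m hl.tail hm.tail, List.drop_succ_cons, List.drop_succ_cons]
      · rw [if_neg hab, List.drop_zero, List.drop_zero]
        have h1 : IsReduced (invRev (a :: l) ++ b :: m) := by
          unfold FreeGroup.IsReduced
          rw [List.isChain_append]
          refine ⟨isReduced_invRev hl, hm, ?_⟩
          intro x hx y hy
          rw [invRev_cons] at hx
          simp [invRev] at hx
          simp at hy
          subst hx hy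
          intro h
          simp only at h ⊢
          by_contra hne
          apply hab
          ext
          · exact congrArg Fin.val h
          · revert hne
            cases a.2 <;> cases b.2 <;> simp
        rw [h1.reduce_eq]

section tree

variable {X : Type*} [MetricSpace X] [MulAction (FreeGroup (Fin r)) X]

lemma orbit_lip (hG : IsGeometric (FreeGroup (Fin r)) X) (x₀ : X) :
    ∃ C : ℝ, 0 ≤ C ∧ (∀ h : FreeGroup (Fin r), wlen (basis r) h ≤ 1 → dist x₀ (h • x₀) ≤ C) ∧
      ∀ L : List (Fin r × Bool), dist x₀ ((FreeGroup.mk L) • x₀) ≤ C * L.length := by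
  obtain ⟨C, hC0, hC⟩ := orbit_upper (closure_basis r) (finite_basis r) x₀
  refine ⟨C, hC0, hC, fun L => ?_⟩
  induction L with
  | nil =>
    have : (FreeGroup.mk [] : FreeGroup (Fin r)) = 1 := rfl
    rw [this, one_smul]
    simp
  | cons a L ih =>
    have e : (FreeGroup.mk (a :: L) : FreeGroup (Fin r)) = lt a * FreeGroup.mk L := by
      rw [lt, FreeGroup.mul_mk]; rfl
    have h1 := dist_triangle x₀ (lt a • x₀) (lt a • FreeGroup.mk L • x₀)
    rw [hG.isometric] at h1
    have h2 : dist x₀ (lt a • x₀) ≤ C := by
      apply hC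
      change wlen (Set.range FreeGroup.of) (lt a) ≤ 1
      rw [wlen_free, lt, toWord_mk]
      simp
    rw [e, mul_smul, List.length_cons]
    push_cast
    linarith

/-- Gromov products of orbit points are bounded above by a linear function of the Gromov product of
the group elements. -/
lemma tree_upper (hX : IsTree X) (hG : IsGeometric (FreeGroup (Fin r)) X) (x₀ : X) :
    ∃ K₀ K₁ : ℝ, 0 < K₀ ∧ ∀ g h : FreeGroup (Fin r),
      gromovProd x₀ (g • x₀) (h • x₀) ≤ K₀ * lcp g.toWord h.toWord + K₁ := by
  obtain ⟨C, hC0, hC, hCL⟩ := orbit_lip hG x₀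
  obtain ⟨κ, hκ, hlow⟩ := milnor_schwarz (T := basis r) (closure_basis r) hX.geodesic hG x₀
  refine ⟨C + 1, C + C * ((4 * C + 2) / κ), by linarith, fun g h => ?_⟩
  set k := lcp g.toWord h.toWord with hk
  set z := g⁻¹ * h with hz
  have hzw : z.toWord = invRev (g.toWord.drop k) ++ h.toWord.drop k := by
    rw [hz, toWord_mul, toWord_inv, reduce_invRev_append' _ _ isReduced_toWord isReduced_toWord]
  set y : ℕ → X := fun i => (g * FreeGroup.mk (z.toWord.take i)) • x₀ with hy
  have h0 : y 0 = g • x₀ := by
    simp only [hy, List.take_zero]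
    have : (FreeGroup.mk [] : FreeGroup (Fin r)) = 1 := rfl
    rw [this, mul_one]
  have hn : y z.toWord.length = h • x₀ := by
    simp only [hy, List.take_length, mk_toWord, hz, mul_inv_cancel_left]
  set k' := (g.toWord.drop k).length with hk'
  have hkn : k' ≤ z.toWord.length := by
    rw [hzw, List.length_append, invRev_length]
    omega
  have hu : y k' = (FreeGroup.mk (g.toWord.take k)) • x₀ := by
    simp only [hy]
    congr 1
    have h1 : z.toWord.take k' = invRev (g.toWord.drop k) := by
      rw [hzw, List.take_append_of_le_length (by rw [invRev_length])]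
      rw [List.take_of_length_le (by rw [invRev_length])]
    rw [h1, ← FreeGroup.inv_mk]
    rw [mul_inv_eq_iff_eq_mul, FreeGroup.mul_mk, List.take_append_drop, mk_toWord]
  have hnb := no_backtrack hX.four_point y C κ 2 hC0 hκ (by norm_num) z.toWord.length
    (by
      intro i hi
      simp only [hy]
      rw [mul_smul, mul_smul, hG.isometric, dist_smul_smul hG]
      apply hC
      have := wlen_take z (Nat.le_succ i) hi
      change wlen (Set.range FreeGroup.of) _ ≤ 1
      rw [this]
      omega)
    (by
      intro i j hij hj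
      simp only [hy]
      rw [mul_smul, mul_smul, hG.isometric, dist_smul_smul hG]
      have := hlow ((FreeGroup.mk (z.toWord.take i))⁻¹ * FreeGroup.mk (z.toWord.take j))
      have h2 := wlen_take z hij hj
      change κ * (wlen (Set.range FreeGroup.of) _ : ℕ) - 2 ≤ _ at this
      rw [h2, Nat.cast_sub hij] at this
      exact this) k' hkn
  rw [h0, hn, hu] at hnb
  have h3 := hCL (g.toWord.take k)
  have h4 : ((g.toWord.take k).length : ℝ) ≤ k := by
    exact_mod_cast List.length_take_le _ _
  have h5 : C * ((g.toWord.take k).length : ℝ) ≤ C * k := mul_le_mul_of_nonneg_left h4 hC0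
  set w := (FreeGroup.mk (g.toWord.take k)) • x₀ with hw
  have h6 : gromovProd x₀ (g • x₀) (h • x₀) ≤ dist x₀ w + gromovProd w (g • x₀) (h • x₀) := by
    unfold gromovProd
    have e1 := dist_triangle (g • x₀) w x₀
    have e2 := dist_triangle (h • x₀) w x₀
    rw [dist_comm w x₀] at e1 e2
    linarith
  have h7 : (0 : ℝ) ≤ k := Nat.cast_nonneg _
  linarith

end tree

/-! ### positive words -/

variable (a₀ a₁ : Fin r × Bool)

/-- the word with letters `a₀`, `a₁` given by binary digits -/
def bw (x : ℕ → Fin 2) : ℕ → Fin r × Bool := fun n => if x n = 0 then a₀ else a₁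

variable {a₀ a₁} (h₀ : a₀.2 = true) (h₁ : a₁.2 = true) (h₀₁ : a₀ ≠ a₁)

include h₀ h₁ in
lemma redW_bw (x : ℕ → Fin 2) : RedW (bw a₀ a₁ x) := by
  have h : ∀ n, (bw a₀ a₁ x n).2 = true := by
    intro n
    unfold bw
    split_ifs <;> assumption
  intro n hn
  have h1 := h (n + 1)
  rw [hn] at h1
  simp [inv', h n] at h1

include h₀₁ in
lemma bw_ne_iff {x y : ℕ → Fin 2} (n : ℕ) : bw a₀ a₁ x n = bw a₀ a₁ y n ↔ x n = y n := by
  unfold bw
  have hx : x n = 0 ∨ x n = 1 := by omega
  have hy : y n = 0 ∨ y n = 1 := by omega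
  rcases hx with hx | hx <;> rcases hy with hy | hy <;> simp [hx, hy, h₀₁, h₀₁.symm]

/-- the sequence of initial segments -/
noncomputable def seqOf {w : ℕ → Fin r × Bool} (hw : RedW w) : InfSeq (basis r) :=
  ⟨pre w, by
    unfold ConvInf
    refine tendsto_atTop.2 fun b => ?_
    obtain ⟨M, hM⟩ := exists_nat_ge b
    rw [eventually_atTop]
    refine ⟨(M, M), fun p hp => ?_⟩
    have h1 : M ≤ p.1 := hp.1
    have h2 : M ≤ p.2 := hp.2
    rw [gprod_basis, toWord_pre hw, toWord_pre hw]
    refine hM.trans ?_
    rcases le_total p.1 p.2 with h | h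
    · rw [lcp_map_range w _ _ h]
      exact_mod_cast h1
    · have hs : ∀ l m : List (Fin r × Bool), lcp l m = lcp m l := by
        intro l
        induction l with
        | nil => intro m; rw [lcp_nil_left, lcp_nil_right]
        | cons a l ih =>
          intro m
          cases m with
          | nil => rw [lcp_nil_left, lcp_nil_right]
          | cons b m =>
            rw [lcp_cons_cons, lcp_cons_cons, ih m]
            by_cases hab : a = b
            · rw [if_pos hab, if_pos hab.symm]
            · rw [if_neg hab, if_neg (Ne.symm hab)]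
      rw [hs, lcp_map_range w _ _ h]
      exact_mod_cast h2⟩

/-- the boundary point of an infinite word -/
noncomputable def ptOf {w : ℕ → Fin r × Bool} (hw : RedW w) : Boundary (basis r) :=
  bmk (basis r) (seqOf hw)

lemma toBd_ptOf {w : ℕ → Fin r × Bool} (hw : RedW w) : toBd (ptOf hw) = endOf hw := by
  change seqEnd (seqOf hw) = endOf hw
  apply Subtype.ext
  funext v
  obtain ⟨n, h1, h2⟩ := ((seqEnd_conv (seqOf hw) v).and (endOf_conv hw v)).exists
  change dir v (pre w n) = _ at h1
  rw [h2] at h1
  exact (Option.some.inj h1).symm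

lemma ptOf_conv {w : ℕ → Fin r × Bool} (hw : RedW w) : ConvTo (basis r) (pre w) (ptOf hw) :=
  ⟨seqOf hw, rfl, rfl⟩

include h₀₁ in
lemma lcp_bw {x y : ℕ → Fin 2} {n : ℕ} (hlt : ∀ k < n, x k = y k) (hn : x n ≠ y n) {i j : ℕ}
    (hi : n < i) (hj : n < j) :
    lcp ((List.range i).map (bw a₀ a₁ x)) ((List.range j).map (bw a₀ a₁ y)) = n := by
  obtain ⟨i, rfl⟩ := Nat.exists_eq_add_of_lt hi
  obtain ⟨j, rfl⟩ := Nat.exists_eq_add_of_lt hj
  have e1 : ∀ i, List.range (n + i + 1) = List.range n ++ (List.range (i + 1)).map (n + ·) :=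
    fun i => by rw [add_assoc]; exact List.range_add
  have e2 : ∀ i, List.range (i + 1) = 0 :: (List.range i).map Nat.succ :=
    fun i => List.range_succ_eq_map
  rw [e1 i, e1 j, List.map_append, List.map_append, e2 i, e2 j]
  have h1 : (List.range n).map (bw a₀ a₁ x) = (List.range n).map (bw a₀ a₁ y) := by
    apply List.map_congr_left
    intro k hk
    exact (bw_ne_iff h₀₁ k).2 (hlt k (List.mem_range.1 hk))
  rw [h1]
  have key : ∀ l m m' : List (Fin r × Bool), lcp (l ++ m) (l ++ m') = l.length + lcp m m' := by
    intro l m m'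
    induction l with
    | nil => simp
    | cons a l ih => simp [lcp_cons_cons, ih]; ring
  rw [key]
  simp only [List.map_cons, add_zero, List.length_map, List.length_range]
  rw [lcp_cons_cons, if_neg (fun h => hn ((bw_ne_iff h₀₁ n).1 h)), add_zero]

/-- Lower bound for the dimension: if `m` is bounded below by an exponential function of the Gromov
product on the set of positive words then this set has positive dimension. -/
lemma dim_pos (m : MetricSpace (Boundary (basis r))) (c lam : ℝ) (hc : 0 < c) (hlam0 : 0 < lam)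
    (hlam1 : lam < 1)
    (hm : ∀ (x y : ℕ → Fin 2) (n : ℕ), (∀ k < n, x k = y k) → x n ≠ y n →
      c * lam ^ n ≤ m.dist (ptOf (redW_bw h₀ h₁ x)) (ptOf (redW_bw h₀ h₁ y)))
    (B : Set (Boundary (basis r))) (hB : ∀ x, ptOf (redW_bw h₀ h₁ x) ∈ B) :
    0 < hausdorffDim m B := by
  classical
  set P : (ℕ → Fin 2) → Boundary (basis r) := fun x => ptOf (redW_bw h₀ h₁ x) with hP
  have hinj : Function.Injective P := by
    intro x y hxy
    by_contra hne
    have hex : ∃ n, x n ≠ y n := by
      by_contra hcon
      push Not at hcon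
      exact hne (funext hcon)
    have h1 := hm x y (Nat.find hex) (fun k hk => not_not.1 (Nat.find_min hex hk))
      (Nat.find_spec hex)
    change c * lam ^ _ ≤ m.dist (P x) (P y) at h1
    rw [hxy] at h1
    have h2 : m.dist (P y) (P y) = 0 := m.dist_self _
    rw [h2] at h1
    have : 0 < c * lam ^ Nat.find hex := by positivity
    linarith
  set f : Boundary (basis r) → ℝ := fun p => if h : ∃ x, P x = p then Real.ofDigits h.choose else 0
    with hf
  have hfP : ∀ x, f (P x) = Real.ofDigits x := by
    intro x
    have h : ∃ x', P x' = P x := ⟨x, rfl⟩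
    simp only [hf]
    rw [dif_pos h, hinj h.choose_spec]
  -- exponent
  set s : ℝ := Real.log 2 / Real.log lam⁻¹ with hs
  have hloglam : 0 < Real.log lam⁻¹ := Real.log_pos ((one_lt_inv₀ hlam0).2 hlam1)
  have hs0 : 0 < s := div_pos (Real.log_pos (by norm_num)) hloglam
  have hlams : lam ^ s = 1 / 2 := by
    rw [Real.rpow_def_of_pos hlam0, hs, Real.log_inv]
    have : Real.log lam ≠ 0 := by
      rw [Real.log_inv] at hloglam
      linarith
    have e : Real.log lam * (Real.log 2 / -Real.log lam) = -Real.log 2 := by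
      field_simp
    rw [e, Real.exp_neg, Real.exp_log (by norm_num)]
    norm_num
  set sN : NNReal := ⟨s, hs0.le⟩ with hsN
  have hcs : 0 < c ^ s := Real.rpow_pos_of_pos hc s
  set CN : NNReal := ⟨(c ^ s)⁻¹, (inv_pos.2 hcs).le⟩ with hCN
  have hhold : @HolderOnWith _ _ (@MetricSpace.toPseudoMetricSpace _ m).toPseudoEMetricSpace _
      CN sN f (Set.range P) := by
    rintro _ ⟨x, rfl⟩ _ ⟨y, rfl⟩
    rw [hfP, hfP]
    by_cases hxy : x = y
    · rw [hxy]; simp
    have hex : ∃ n, x n ≠ y n := by
      by_contra hcon
      push Not at hcon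
      exact hxy (funext hcon)
    set n := Nat.find hex with hn
    have hlt : ∀ k < n, x k = y k := fun k hk => not_not.1 (Nat.find_min hex hk)
    have h1 := hm x y n hlt (Nat.find_spec hex)
    have h2 : |Real.ofDigits x - Real.ofDigits y| ≤ (((2 : ℕ) : ℝ) ^ n)⁻¹ :=
      Real.abs_ofDigits_sub_ofDigits_le hlt
    have h3 : dist (Real.ofDigits x) (Real.ofDigits y) ≤
        (c ^ s)⁻¹ * (m.dist (P x) (P y)) ^ s := by
      rw [Real.dist_eq]
      refine h2.trans ?_
      have h4 : (c * lam ^ n) ^ s ≤ (m.dist (P x) (P y)) ^ s :=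
        Real.rpow_le_rpow (by positivity) h1 hs0.le
      rw [Real.mul_rpow hc.le (by positivity), ← Real.rpow_natCast, ← Real.rpow_mul hlam0.le,
        mul_comm (n : ℝ) s, Real.rpow_mul hlam0.le, hlams, Real.rpow_natCast] at h4
      rw [← div_eq_inv_mul, le_div_iff₀ hcs]
      refine le_trans (le_of_eq ?_) h4
      rw [mul_comm, one_div, inv_pow]
      norm_num
    let := m
    rw [edist_dist, edist_dist]
    refine (ENNReal.ofReal_le_ofReal h3).trans (le_of_eq ?_)
    rw [ENNReal.ofReal_mul (inv_pos.2 hcs).le]
    congr 1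
    · exact (ENNReal.ofReal_eq_coe_nnreal _)
    · change ENNReal.ofReal (dist (P x) (P y) ^ s) = ENNReal.ofReal (dist (P x) (P y)) ^ s
      rw [ENNReal.ofReal_rpow_of_nonneg dist_nonneg hs0.le]
  have himg : Set.Ico (0 : ℝ) 1 ⊆ f '' Set.range P := by
    intro t ht
    refine ⟨P (Real.digits t 2), ⟨_, rfl⟩, ?_⟩
    rw [hfP]
    exact Real.ofDigits_digits (by norm_num) ht
  let := m
  have hd1 : dimH (Set.Ico (0 : ℝ) 1) = 1 := by
    have := Real.dimH_of_nonempty_interior (E := ℝ) (s := Set.Ico (0 : ℝ) 1) (by
      rw [interior_Ico]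
      exact ⟨1 / 2, by norm_num, by norm_num⟩)
    simpa using this
  have h5 : (1 : ENNReal) ≤ dimH (Set.range P) / sN := by
    rw [← hd1]
    refine (dimH_mono himg).trans ?_
    exact hhold.dimH_image_le (by exact_mod_cast hs0)
  have h6 : dimH (Set.range P) ≤ dimH B := dimH_mono (by rintro _ ⟨x, rfl⟩; exact hB x)
  change 0 < dimH B
  refine lt_of_lt_of_le ?_ h6
  rw [pos_iff_ne_zero]
  intro h7
  rw [h7] at h5
  simp at h5

end Pool.Agent.K1H77.NC
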