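import Mathlib
import Pool.Agent.K1H77.NC.Dim

/-!
Visual metrics for the word metric of a free group.
-/

set_option autoImplicit false

namespace Pool.Agent.K1H77.NC

open FreeGroup Filter Topology Pool.Agent.R639.CT Pool.Agent.H322R3.Hyp

variable {r : ℕ}

/-- The free group of rank `r` as a metric space, with the word metric: the vertex set of the
Cayley tree. -/
structure WordSp (r : ℕ) where
  /-- the group element -/
  val : FreeGroup (Fin r)

@[ext] lemma WordSp.ext' {x y : WordSp r} (h : x.val = y.val) : x = y := by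
  cases x; cases y; simp only [WordSp.mk.injEq]; exact h

noncomputable instance : MetricSpace (WordSp r) where
  dist x y := wlen (basis r) (x.val⁻¹ * y.val)
  dist_self x := by simp [wlen_one]
  dist_comm x y := by
    have h := wlen_inv (closure_basis r) (x.val⁻¹ * y.val)
    rw [← h]
    congr 2
    group
  dist_triangle x y z := by
    have h := wlen_mul_le (closure_basis r) (x.val⁻¹ * y.val) (y.val⁻¹ * z.val)
    have e : x.val⁻¹ * y.val * (y.val⁻¹ * z.val) = x.val⁻¹ * z.val := by group
    rw [e] at h
    exact_mod_cast h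
  eq_of_dist_eq_zero := by
    intro x y h
    have h1 : wlen (Set.range FreeGroup.of) (x.val⁻¹ * y.val) = 0 := by exact_mod_cast h
    rw [wlen_free, List.length_eq_zero_iff, toWord_eq_nil_iff, inv_mul_eq_one] at h1
    exact WordSp.ext' h1

/-- left translations -/
instance : MulAction (FreeGroup (Fin r)) (WordSp r) where
  smul g x := ⟨g * x.val⟩
  one_smul x := WordSp.ext' (one_mul _)
  mul_smul g h x := WordSp.ext' (mul_assoc _ _ _)

lemma gromovProd_word (g h : FreeGroup (Fin r)) :
    gromovProd (⟨1⟩ : WordSp r) (g • ⟨1⟩) (h • ⟨1⟩) = lcp g.toWord h.toWord := by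
  rw [← gprod_basis]
  unfold gromovProd gprod wdist
  change ((wlen (basis r) ((g * 1)⁻¹ * 1) : ℝ) + wlen (basis r) ((h * 1)⁻¹ * 1) -
    wlen (basis r) ((g * 1)⁻¹ * (h * 1))) / 2 = _
  simp only [mul_one]

/-! ### words of ends -/

/-- the vertices of the ray from `1` to the end `ξ` -/
def ray (ξ : Bd r) : ℕ → FreeGroup (Fin r)
  | 0 => 1
  | n + 1 => ray ξ n * lt (ξ.1 (ray ξ n))

/-- the letters of the ray -/
def letter (ξ : Bd r) (n : ℕ) : Fin r × Bool := ξ.1 (ray ξ n)

lemma redW_letter (ξ : Bd r) : RedW (letter ξ) := by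
  intro n h
  exact (ξ.2 (ray ξ n) (letter ξ n)).1 h rfl

lemma ray_eq (ξ : Bd r) (n : ℕ) : ray ξ n = pre (letter ξ) n := by
  induction n with
  | zero => rfl
  | succ n ih =>
    rw [pre_succ, ← ih]
    rfl

lemma prefix_of_conv {x : ℕ → FreeGroup (Fin r)} {ξ : Bd r} (h : ConvDir x ξ.1) (n : ℕ) :
    ∀ᶠ i in atTop, ∃ s, (x i).toWord = (List.range n).map (letter ξ) ++ s := by
  induction n with
  | zero => exact Eventually.of_forall fun i => ⟨(x i).toWord, by simp⟩
  | succ n ih =>
    filter_upwards [ih, h (ray ξ n)] with i hi1 hi2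
    obtain ⟨s, hs⟩ := hi1
    have hr : IsReduced ((List.range n).map (letter ξ) ++ s) := by
      rw [← hs]; exact isReduced_toWord
    have hr2 : IsReduced s := by
      unfold FreeGroup.IsReduced at hr ⊢
      exact (List.isChain_append.mp hr).2.1
    have h1 : (ray ξ n)⁻¹ * x i = FreeGroup.mk s := by
      rw [inv_mul_eq_iff_eq_mul, ray_eq, pre, FreeGroup.mul_mk, ← hs, mk_toWord]
    unfold dir hd at hi2
    rw [h1, toWord_mk, hr2.reduce_eq] at hi2
    obtain ⟨t, rfl⟩ := List.head?_eq_some_iff.1 hi2
    refine ⟨t, ?_⟩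
    rw [hs, List.range_succ, List.map_append]
    simp [letter]

lemma conv_ray (ξ : Bd r) (v : FreeGroup (Fin r)) (n : ℕ) (hn : v.norm < n) :
    dir v (ray ξ n) = some (ξ.1 v) := by
  obtain ⟨k, rfl⟩ : ∃ k, n = k + 1 := ⟨n - 1, by omega⟩
  have hnorm : (ray ξ (k + 1)).norm = k + 1 := by rw [ray_eq, norm_pre (redW_letter ξ)]
  apply dir_or'
  · intro h
    rw [h, hnorm] at hn
    omega
  · have h1 : dir (ray ξ (k + 1)) v = hd (ray ξ (k + 1))⁻¹ := by
      unfold dir
      apply hd_mul_of_norm_lt
      rw [FreeGroup.norm_inv_eq, hnorm]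
      exact hn
    have h2 : hd (ray ξ (k + 1))⁻¹ = some (inv' (letter ξ k)) := by
      unfold hd
      rw [toWord_inv, ray_eq, toWord_pre (redW_letter ξ), List.range_succ, List.map_append]
      simp [invRev, inv']
    rw [h1, h2]
    intro h3
    exact redW_letter ξ k (Option.some.inj h3).symm

lemma letter_injective : Function.Injective (letter : Bd r → ℕ → Fin r × Bool) := by
  intro ξ η h
  apply Subtype.ext
  funext v
  have h1 := conv_ray ξ v (v.norm + 1) (Nat.lt_succ_self _)
  have h2 := conv_ray η v (v.norm + 1) (Nat.lt_succ_self _)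
  rw [ray_eq] at h1 h2
  rw [h, h2] at h1
  exact (Option.some.inj h1).symm

lemma lcp_eq_firstDiff {w w' : ℕ → Fin r × Bool} (hne : w ≠ w') (s t : List (Fin r × Bool)) :
    lcp ((List.range (PiNat.firstDiff w w' + 1)).map w ++ s)
      ((List.range (PiNat.firstDiff w w' + 1)).map w' ++ t) = PiNat.firstDiff w w' := by
  set n := PiNat.firstDiff w w' with hn
  have h1 : (List.range n).map w = (List.range n).map w' := by
    apply List.map_congr_left
    intro k hk
    exact PiNat.apply_eq_of_lt_firstDiff (List.mem_range.1 hk)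
  have key : ∀ l m m' : List (Fin r × Bool), lcp (l ++ m) (l ++ m') = l.length + lcp m m' := by
    intro l m m'
    induction l with
    | nil => simp
    | cons a l ih => simp [lcp_cons_cons, ih]; ring
  rw [List.range_succ, List.map_append, List.map_append, h1, List.append_assoc, List.append_assoc,
    key]
  simp only [List.map_cons, List.map_nil, List.cons_append, List.nil_append, List.length_map,
    List.length_range]
  rw [lcp_cons_cons, if_neg (PiNat.apply_firstDiff_ne hne), add_zero]

/-- Gromov products of sequences converging to distinct ends. -/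
lemma lcp_of_conv {x y : ℕ → FreeGroup (Fin r)} {ξ η : Bd r} (hx : ConvDir x ξ.1)
    (hy : ConvDir y η.1) (hne : ξ ≠ η) :
    ∃ N, ∀ i j, N ≤ i → N ≤ j →
      lcp (x i).toWord (y j).toWord = PiNat.firstDiff (letter ξ) (letter η) := by
  have h1 := prefix_of_conv hx (PiNat.firstDiff (letter ξ) (letter η) + 1)
  have h2 := prefix_of_conv hy (PiNat.firstDiff (letter ξ) (letter η) + 1)
  obtain ⟨N1, hN1⟩ := eventually_atTop.1 h1
  obtain ⟨N2, hN2⟩ := eventually_atTop.1 h2
  refine ⟨max N1 N2, fun i j hi hj => ?_⟩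
  obtain ⟨s, hs⟩ := hN1 i ((le_max_left _ _).trans hi)
  obtain ⟨t, ht⟩ := hN2 j ((le_max_right _ _).trans hj)
  rw [hs, ht]
  exact lcp_eq_firstDiff (fun h => hne (letter_injective h)) s t

lemma toBd_injective : Function.Injective (toBd : Boundary (basis r) → Bd r) := by
  intro p q hpq
  obtain ⟨x, rfl⟩ := Quot.exists_rep p
  obtain ⟨y, rfl⟩ := Quot.exists_rep q
  change seqEnd x = seqEnd y at hpq
  apply Quot.sound
  unfold BEquiv
  refine tendsto_atTop.2 fun b => ?_
  obtain ⟨M, hM⟩ := exists_nat_ge b
  have h1 := prefix_of_conv (seqEnd_conv x) M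
  have h2 := prefix_of_conv (seqEnd_conv y) M
  obtain ⟨N1, hN1⟩ := eventually_atTop.1 h1
  obtain ⟨N2, hN2⟩ := eventually_atTop.1 h2
  rw [eventually_atTop]
  refine ⟨(N1, N2), fun p hp => ?_⟩
  obtain ⟨s, hs⟩ := hN1 p.1 hp.1
  obtain ⟨t, ht⟩ := hN2 p.2 hp.2
  rw [gprod_basis, hs, ht, hpq]
  refine hM.trans ?_
  have key : ∀ l m m' : List (Fin r × Bool), l.length ≤ lcp (l ++ m) (l ++ m') := by
    intro l m m'
    induction l with
    | nil => simp
    | cons a l ih => simp [lcp_cons_cons, ih]
  have := key ((List.range M).map (letter (seqEnd y))) s t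
  rw [List.length_map, List.length_range] at this
  exact_mod_cast this

lemma convTo_dir {x : ℕ → FreeGroup (Fin r)} {p : Boundary (basis r)}
    (h : ConvTo (basis r) x p) : ConvDir x (toBd p).1 := by
  obtain ⟨y, rfl, rfl⟩ := h
  exact seqEnd_conv y

/-- The distance `a ^ (-(p | q))`. -/
noncomputable def vdist (a : ℝ) (p q : Boundary (basis r)) : ℝ := by
  classical
  exact if p = q then 0 else
    a ^ (-(PiNat.firstDiff (letter (toBd p)) (letter (toBd q)) : ℝ))

/-- The standard visual metric. -/
noncomputable def visMetric (a : ℝ) (ha : 1 < a) : MetricSpace (Boundary (basis r)) where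
  dist := vdist a
  dist_self p := by simp [vdist]
  dist_comm p q := by
    unfold vdist
    rw [PiNat.firstDiff_comm]
    by_cases h : p = q
    · simp [h]
    · simp [h, Ne.symm h]
  dist_triangle p q s := by
    have ha0 : 0 < a := by linarith
    have hpos : ∀ t : ℝ, 0 < a ^ t := fun t => Real.rpow_pos_of_pos ha0 t
    unfold vdist
    by_cases h1 : p = s
    · rw [if_pos h1]
      split_ifs <;> first | positivity | (have := hpos; positivity)
    by_cases h2 : p = q
    · subst h2
      simp
    by_cases h3 : q = s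
    · subst h3
      simp
    rw [if_neg h1, if_neg h2, if_neg h3]
    have hne : letter (toBd p) ≠ letter (toBd s) := fun h =>
      h1 (toBd_injective (letter_injective h))
    have h4 := PiNat.min_firstDiff_le (letter (toBd p)) (letter (toBd q)) (letter (toBd s)) hne
    rcases min_le_iff.1 h4 with h5 | h5
    · have : a ^ (-(PiNat.firstDiff (letter (toBd p)) (letter (toBd s)) : ℝ)) ≤
          a ^ (-(PiNat.firstDiff (letter (toBd p)) (letter (toBd q)) : ℝ)) :=
        Real.rpow_le_rpow_of_exponent_le ha.le (by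
          have : (PiNat.firstDiff (letter (toBd p)) (letter (toBd q)) : ℝ) ≤
            PiNat.firstDiff (letter (toBd p)) (letter (toBd s)) := by exact_mod_cast h5
          linarith)
      have h6 := hpos (-(PiNat.firstDiff (letter (toBd q)) (letter (toBd s)) : ℝ))
      linarith
    · have : a ^ (-(PiNat.firstDiff (letter (toBd p)) (letter (toBd s)) : ℝ)) ≤
          a ^ (-(PiNat.firstDiff (letter (toBd q)) (letter (toBd s)) : ℝ)) :=
        Real.rpow_le_rpow_of_exponent_le ha.le (by
          have : (PiNat.firstDiff (letter (toBd q)) (letter (toBd s)) : ℝ) ≤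
            PiNat.firstDiff (letter (toBd p)) (letter (toBd s)) := by exact_mod_cast h5
          linarith)
      have h6 := hpos (-(PiNat.firstDiff (letter (toBd p)) (letter (toBd q)) : ℝ))
      linarith
  eq_of_dist_eq_zero := by
    intro p q h
    by_contra hne
    have ha0 : 0 < a := by linarith
    have h' : vdist a p q = 0 := h
    unfold vdist at h'
    rw [if_neg hne] at h'
    have := Real.rpow_pos_of_pos ha0
      (-(PiNat.firstDiff (letter (toBd p)) (letter (toBd q)) : ℝ))
    linarith

lemma visMetric_isVisual (a : ℝ) (ha : 1 < a) :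
    IsVisual (basis r) (⟨1⟩ : WordSp r) a (visMetric a ha) := by
  refine ⟨1, one_pos, fun x y p q hx hy hne => ?_⟩
  obtain ⟨N, hN⟩ := lcp_of_conv (convTo_dir hx) (convTo_dir hy)
    (fun h => hne (toBd_injective h))
  refine ⟨N, fun i j hi hj => ?_⟩
  have e : (visMetric a ha).dist p q =
      a ^ (-(gromovProd (⟨1⟩ : WordSp r) (x i • ⟨1⟩) (y j • ⟨1⟩))) := by
    change vdist a p q = _
    unfold vdist
    rw [if_neg hne, gromovProd_word, hN i j hi hj]
  rw [← e]
  simp

end Pool.Agent.K1H77.NC
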