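import Mathlib
import Pool.Agent.K1H77.NC.Vis

/-!
Positive dimension for visual metrics.
-/

set_option autoImplicit false

namespace Pool.Agent.K1H77.NC

open FreeGroup Filter Topology Pool.Agent.R639.CT Pool.Agent.H322R3.Hyp

variable {r : ℕ} {a₀ a₁ : Fin r × Bool} (h₀ : a₀.2 = true) (h₁ : a₁.2 = true) (h₀₁ : a₀ ≠ a₁)

include h₀₁ in
lemma ptOf_ne {x y : ℕ → Fin 2} {n : ℕ} (hlt : ∀ k < n, x k = y k) (hn : x n ≠ y n) :
    ptOf (redW_bw h₀ h₁ x) ≠ ptOf (redW_bw h₀ h₁ y) := by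
  intro h
  have h1 := congrArg toBd h
  rw [toBd_ptOf, toBd_ptOf] at h1
  have e : pre (bw a₀ a₁ x) n = pre (bw a₀ a₁ y) n := by
    unfold pre
    congr 1
    apply List.map_congr_left
    intro k hk
    exact (bw_ne_iff h₀₁ k).2 (hlt k (List.mem_range.1 hk))
  have h2 := endOf_pre (redW_bw h₀ h₁ x) n
  have h3 := endOf_pre (redW_bw h₀ h₁ y) n
  rw [h1, e, h3] at h2
  exact hn ((bw_ne_iff h₀₁ n).1 h2.symm)

include h₀₁ in
lemma vis_pos {X : Type*} [MetricSpace X] [MulAction (FreeGroup (Fin r)) X] (x₀ : X) (a : ℝ)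
    (ha : 1 < a) (m : MetricSpace (Boundary (basis r))) (hm : IsVisual (basis r) x₀ a m)
    (K₀ K₁ : ℝ) (hK₀ : 0 < K₀) (hup : ∀ g h : FreeGroup (Fin r),
      gromovProd x₀ (g • x₀) (h • x₀) ≤ K₀ * lcp g.toWord h.toWord + K₁)
    (B : Set (Boundary (basis r))) (hB : ∀ x, ptOf (redW_bw h₀ h₁ x) ∈ B) :
    0 < hausdorffDim m B := by
  obtain ⟨C, hC0, hC⟩ := hm
  have ha0 : 0 < a := by linarith
  refine dim_pos h₀ h₁ m (C⁻¹ * a ^ (-K₁)) (a ^ (-K₀)) (by positivity) (by positivity)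
    (Real.rpow_lt_one_of_one_lt_of_neg ha (by linarith)) ?_ B hB
  intro x y n hlt hn
  obtain ⟨N, hN⟩ := hC _ _ _ _ (ptOf_conv (redW_bw h₀ h₁ x)) (ptOf_conv (redW_bw h₀ h₁ y))
    (ptOf_ne h₀ h₁ h₀₁ hlt hn)
  have h1 := (hN (max N (n + 1)) (max N (n + 1)) (le_max_left _ _) (le_max_left _ _)).1
  refine le_trans ?_ h1
  have hi : n < max N (n + 1) := lt_of_lt_of_le (Nat.lt_succ_self n) (le_max_right _ _)
  have h2 := hup (pre (bw a₀ a₁ x) (max N (n + 1))) (pre (bw a₀ a₁ y) (max N (n + 1)))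
  rw [toWord_pre (redW_bw h₀ h₁ x), toWord_pre (redW_bw h₀ h₁ y), lcp_bw h₀₁ hlt hn hi hi] at h2
  rw [mul_assoc]
  apply mul_le_mul_of_nonneg_left _ (inv_pos.2 hC0).le
  rw [← Real.rpow_natCast, ← Real.rpow_mul ha0.le, ← Real.rpow_add ha0]
  apply Real.rpow_le_rpow_of_exponent_le ha.le
  linarith

end Pool.Agent.K1H77.NC
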